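import Mathlib

set_option autoImplicit false

namespace H864D

open Matrix

/-- A complex matrix indexed by `ι × Fin 2`, `κ × Fin 2` of quaternionic type. -/
def Quat {ι κ : Type*} (M : Matrix (ι × Fin 2) (κ × Fin 2) ℂ) : Prop :=
  ∀ i j, M (i, 1) (j, 1) = star (M (i, 0) (j, 0)) ∧ M (i, 1) (j, 0) = -star (M (i, 0) (j, 1))

theorem Quat.mul {ι κ μ : Type*} [Fintype κ]
    {M : Matrix (ι × Fin 2) (κ × Fin 2) ℂ} {N : Matrix (κ × Fin 2) (μ × Fin 2) ℂ}
    (hM : Quat M) (hN : Quat N) : Quat (M * N) := by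
  intro i k
  simp only [Matrix.mul_apply, Fintype.sum_prod_type, Fin.sum_univ_two, star_sum, star_add,
    star_mul', ← Finset.sum_neg_distrib]
  constructor
  · refine Finset.sum_congr rfl fun j _ => ?_
    rw [(hM i j).1, (hM i j).2, (hN j k).1, (hN j k).2]
    simp only [star_neg, star_star]
    ring
  · refine Finset.sum_congr rfl fun j _ => ?_
    rw [(hM i j).1, (hM i j).2, (hN j k).1, (hN j k).2]
    simp only [star_neg, star_star]
    ring

theorem Quat.sub {ι κ : Type*} {M N : Matrix (ι × Fin 2) (κ × Fin 2) ℂ}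
    (hM : Quat M) (hN : Quat N) : Quat (M - N) := by
  intro i k
  simp only [Matrix.sub_apply, star_sub, (hM i k).1, (hM i k).2, (hN i k).1, (hN i k).2]
  exact ⟨trivial, by ring⟩

theorem Quat.conjTranspose {ι κ : Type*} {M : Matrix (ι × Fin 2) (κ × Fin 2) ℂ}
    (hM : Quat M) : Quat Mᴴ := by
  intro i k
  simp only [Matrix.conjTranspose_apply, (hM k i).1, (hM k i).2]
  constructor
  · simp
  · simp

theorem Quat.smul {ι κ : Type*} {M : Matrix (ι × Fin 2) (κ × Fin 2) ℂ} (c : ℝ)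
    (hM : Quat M) : Quat ((c : ℂ) • M) := by
  intro i k
  simp only [Matrix.smul_apply, (hM i k).1, (hM i k).2, smul_eq_mul, star_mul']
  constructor
  · simp
  · simp

/-- the norm of a single quaternion. -/
theorem unit_det {P : Matrix (Unit × Fin 2) (Unit × Fin 2) ℂ} (hP : Quat P) :
    P.det = ((‖P ((), 0) ((), 0)‖ ^ 2 + ‖P ((), 0) ((), 1)‖ ^ 2 : ℝ) : ℂ) := by
  rw [← Matrix.det_submatrix_equiv_self (Equiv.punitProd (Fin 2)).symm P, Matrix.det_fin_two]
  have e0 : (Equiv.punitProd (Fin 2)).symm 0 = ((), (0 : Fin 2)) := rfl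
  have e1 : (Equiv.punitProd (Fin 2)).symm 1 = ((), (1 : Fin 2)) := rfl
  simp only [Matrix.submatrix_apply, e0, e1, (hP () ()).1, (hP () ()).2]
  push_cast
  rw [← Complex.mul_conj', ← Complex.mul_conj']
  simp only [Complex.star_def]
  ring

theorem unit_mul {P : Matrix (Unit × Fin 2) (Unit × Fin 2) ℂ} (hP : Quat P) :
    P * Pᴴ = P.det • (1 : Matrix (Unit × Fin 2) (Unit × Fin 2) ℂ) := by
  rw [unit_det hP]
  ext ⟨⟨⟩, a⟩ ⟨⟨⟩, b⟩
  simp only [Matrix.mul_apply, Fintype.sum_prod_type, Fin.sum_univ_two, Finset.univ_unique,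
    Finset.sum_singleton, Matrix.conjTranspose_apply, Matrix.smul_apply, Matrix.one_apply,
    smul_eq_mul, PUnit.default_eq_unit]
  push_cast
  rw [← Complex.mul_conj', ← Complex.mul_conj']
  fin_cases a <;> fin_cases b <;>
    simp [(hP () ()).1, (hP () ()).2] <;> ring

def optE (α : Type*) : Option α × Fin 2 ≃ (Unit × Fin 2) ⊕ (α × Fin 2) where
  toFun p := match p with
    | (none, a) => Sum.inl ((), a)
    | (some x, a) => Sum.inr (x, a)
  invFun q := match q with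
    | Sum.inl (_, a) => (none, a)
    | Sum.inr (x, a) => (some x, a)
  left_inv := by rintro ⟨_ | x, a⟩ <;> rfl
  right_inv := by rintro (⟨⟨⟩, a⟩ | ⟨x, a⟩) <;> rfl

theorem step_nonzero {α : Type*} [Fintype α] [DecidableEq α]
    (ih : ∀ N : Matrix (α × Fin 2) (α × Fin 2) ℂ, Quat N → ∃ t : ℝ, 0 ≤ t ∧ N.det = t)
    (M : Matrix (Option α × Fin 2) (Option α × Fin 2) ℂ) (hM : Quat M)
    (h0 : ‖M (none, 0) (none, 0)‖ ^ 2 + ‖M (none, 0) (none, 1)‖ ^ 2 ≠ 0) :
    ∃ t : ℝ, 0 ≤ t ∧ M.det = t := by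
  classical
  let P : Matrix (Unit × Fin 2) (Unit × Fin 2) ℂ := fun i j => M (none, i.2) (none, j.2)
  let R : Matrix (Unit × Fin 2) (α × Fin 2) ℂ := fun i j => M (none, i.2) (some j.1, j.2)
  let S : Matrix (α × Fin 2) (Unit × Fin 2) ℂ := fun i j => M (some i.1, i.2) (none, j.2)
  let T : Matrix (α × Fin 2) (α × Fin 2) ℂ := fun i j => M (some i.1, i.2) (some j.1, j.2)
  have hP : Quat P := fun i j => hM none none
  have hR : Quat R := fun i j => hM none (some j)
  have hS : Quat S := fun i j => hM (some i) none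
  have hT : Quat T := fun i j => hM (some i) (some j)
  have hMe : M.submatrix (optE α).symm (optE α).symm = Matrix.fromBlocks P R S T := by
    ext (⟨⟨⟩, a⟩ | ⟨x, a⟩) (⟨⟨⟩, b⟩ | ⟨y, b⟩) <;> rfl
  have hPd := unit_det hP
  set c : ℝ := ‖P ((), 0) ((), 0)‖ ^ 2 + ‖P ((), 0) ((), 1)‖ ^ 2 with hc
  have hc0 : c ≠ 0 := h0
  have hcpos : 0 < c := lt_of_le_of_ne (by positivity) (Ne.symm hc0)
  have hinv : P * (((c⁻¹ : ℝ) : ℂ) • Pᴴ) = 1 := by
    rw [Matrix.mul_smul, unit_mul hP, hPd, smul_smul]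
    have : (((c⁻¹ : ℝ) : ℂ)) * (c : ℂ) = 1 := by
      rw [← Complex.ofReal_mul, inv_mul_cancel₀ hc0, Complex.ofReal_one]
    rw [this, one_smul]
  letI : Invertible P := ⟨((c⁻¹ : ℝ) : ℂ) • Pᴴ, mul_eq_one_comm.mp hinv, hinv⟩
  have hinv' : ⅟P = ((c⁻¹ : ℝ) : ℂ) • Pᴴ := by
    exact invOf_eq_right_inv hinv
  obtain ⟨t, ht, hdet⟩ := ih (T - S * ⅟P * R) (by
    rw [hinv']
    exact hT.sub ((hS.mul (hP.conjTranspose.smul _)).mul hR))
  refine ⟨c * t, by positivity, ?_⟩
  rw [← Matrix.det_submatrix_equiv_self (optE α).symm M, hMe, Matrix.det_fromBlocks₁₁, hdet, hPd]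
  push_cast
  ring

theorem det_swap {α : Type*} [Fintype α] [DecidableEq α]
    (M : Matrix (α × Fin 2) (α × Fin 2) ℂ) (σ : Equiv.Perm α) :
    (M.submatrix id (Equiv.prodCongrLeft fun _ : Fin 2 => σ)).det = M.det := by
  rw [Matrix.det_permute', Equiv.Perm.sign_prodCongrLeft]
  simp [Fin.prod_univ_two]

theorem option_step {α : Type*} [Fintype α] [DecidableEq α]
    (ih : ∀ N : Matrix (α × Fin 2) (α × Fin 2) ℂ, Quat N → ∃ t : ℝ, 0 ≤ t ∧ N.det = t)
    (M : Matrix (Option α × Fin 2) (Option α × Fin 2) ℂ) (hM : Quat M) :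
    ∃ t : ℝ, 0 ≤ t ∧ M.det = t := by
  by_cases hrow : ∃ j : Option α, ‖M (none, 0) (j, 0)‖ ^ 2 + ‖M (none, 0) (j, 1)‖ ^ 2 ≠ 0
  · obtain ⟨j, hj⟩ := hrow
    obtain ⟨t, ht, h⟩ := step_nonzero ih
      (M.submatrix id (Equiv.prodCongrLeft fun _ : Fin 2 => Equiv.swap none j))
      (fun i k => hM i (Equiv.swap none j k)) (by
        simpa [Equiv.prodCongrLeft, Equiv.swap_apply_left] using hj)
    refine ⟨t, ht, ?_⟩
    rw [← h, det_swap]
  · push Not at hrow
    refine ⟨0, le_rfl, ?_⟩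
    rw [Matrix.det_eq_zero_of_row_eq_zero (none, 0)]
    · simp
    · rintro ⟨j, b⟩
      have h := hrow j
      have h1 : ‖M (none, 0) (j, 0)‖ = 0 := by
        nlinarith [sq_nonneg ‖M (none, 0) (j, 0)‖, sq_nonneg ‖M (none, 0) (j, 1)‖]
      have h2 : ‖M (none, 0) (j, 1)‖ = 0 := by
        nlinarith [sq_nonneg ‖M (none, 0) (j, 0)‖, sq_nonneg ‖M (none, 0) (j, 1)‖]
      fin_cases b
      · exact norm_eq_zero.mp h1
      · exact norm_eq_zero.mp h2

/-- **Quaternionic determinants are nonnegative.** -/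
theorem quat_det {ι : Type*} [Fintype ι] [DecidableEq ι] (M : Matrix (ι × Fin 2) (ι × Fin 2) ℂ)
    (hM : Quat M) : ∃ t : ℝ, 0 ≤ t ∧ M.det = t := by
  classical
  have main : ∀ (ι : Type _) [Fintype ι], ∀ (_ : DecidableEq ι)
      (M : Matrix (ι × Fin 2) (ι × Fin 2) ℂ), Quat M → ∃ t : ℝ, 0 ≤ t ∧ M.det = t := by
    intro ι _
    refine Fintype.induction_empty_option
      (P := fun ι _ => ∀ (_ : DecidableEq ι) (M : Matrix (ι × Fin 2) (ι × Fin 2) ℂ),
        Quat M → ∃ t : ℝ, 0 ≤ t ∧ M.det = t) ?_ ?_ ?_ ι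
    · intro α β _ e ih _ M hM
      letI : Fintype α := Fintype.ofEquiv β e.symm
      letI : DecidableEq α := Classical.decEq α
      obtain ⟨t, ht, h⟩ := ih inferInstance (M.submatrix (Equiv.prodCongr e (Equiv.refl _))
        (Equiv.prodCongr e (Equiv.refl _))) (fun i j => hM (e i) (e j))
      refine ⟨t, ht, ?_⟩
      rw [← h, ← Matrix.det_submatrix_equiv_self (Equiv.prodCongr e (Equiv.refl _)) M]
    · intro _ M _
      exact ⟨1, zero_le_one, by simp⟩
    · intro α _ ih dOpt M hM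
      let dα : DecidableEq α := Classical.decEq α
      have e : dOpt = (fun a b => Option.instDecidableEq a b) := Subsingleton.elim _ _
      subst e
      exact option_step (ih dα) M hM
  exact main ι _ M hM

/-- The quaternionic matrix of a pair `(A, B)`. -/
theorem det_blocks_nonneg {ι : Type*} [Fintype ι] [DecidableEq ι] (A B : Matrix ι ι ℂ) :
    ∃ t : ℝ, 0 ≤ t ∧ (Matrix.fromBlocks A B (-(B.map star)) (A.map star)).det = t := by
  classical
  let e : ι × Fin 2 ≃ ι ⊕ ι :=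
    { toFun := fun p => if p.2 = 0 then Sum.inl p.1 else Sum.inr p.1
      invFun := fun q => Sum.elim (fun i => (i, 0)) (fun i => (i, 1)) q
      left_inv := by rintro ⟨i, a⟩; fin_cases a <;> rfl
      right_inv := by rintro (i | i) <;> rfl }
  obtain ⟨t, ht, h⟩ := quat_det
    ((Matrix.fromBlocks A B (-(B.map star)) (A.map star)).submatrix e e) (by
      intro i j
      constructor <;> simp [e])
  exact ⟨t, ht, by rw [← h, Matrix.det_submatrix_equiv_self]⟩

end H864D
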