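import Mathlib

set_option autoImplicit false

namespace H864D

open MeasureTheory

/-- weight in one complex variable. -/
noncomputable def gw (z : ℂ) : ℂ := (Real.exp (-‖z‖ ^ 2) : ℂ)

theorem base_integral (m : ℕ) :
    ∫ z : ℂ, ‖z‖ ^ m * Real.exp (-‖z‖ ^ 2) = Real.pi * Real.Gamma ((m + 2 : ℝ) / 2) := by
  have h := Complex.integral_rpow_mul_exp_neg_rpow (p := 2) (q := m) (by norm_num)
    (by have : (0 : ℝ) ≤ m := Nat.cast_nonneg m; linarith)
  have h2 : 2 * Real.pi / 2 = Real.pi := by ring
  rw [h2] at h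
  rw [← h]
  refine integral_congr_ae (Filter.Eventually.of_forall fun z => ?_)
  simp only [Real.rpow_natCast]
  norm_cast

theorem base_integrable (m : ℕ) :
    Integrable (fun z : ℂ => ‖z‖ ^ m * Real.exp (-‖z‖ ^ 2)) := by
  by_contra h
  have h1 := integral_undef h
  rw [base_integral] at h1
  have h2 : 0 < Real.Gamma ((m + 2 : ℝ) / 2) := Real.Gamma_pos_of_pos (by positivity)
  have h3 := Real.pi_pos
  nlinarith [mul_pos h3 h2]

theorem mono_integrable (m m' : ℕ) :
    Integrable (fun z : ℂ => z ^ m * (star z) ^ m' * gw z) := by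
  have h := base_integrable (m + m')
  refine h.mono' ?_ (Filter.Eventually.of_forall fun z => ?_)
  · refine Continuous.aestronglyMeasurable ?_
    unfold gw
    fun_prop
  · unfold gw
    rw [norm_mul, norm_mul, norm_pow, norm_pow, norm_star, pow_add, Complex.norm_real,
      Real.norm_eq_abs, abs_of_pos (Real.exp_pos _)]

theorem moment_eq (m : ℕ) :
    ∫ z : ℂ, z ^ m * (star z) ^ m * gw z = (Real.pi : ℂ) * (m.factorial : ℂ) := by
  have h : ∀ z : ℂ, z ^ m * (star z) ^ m * gw z
      = ((‖z‖ ^ (2 * m) * Real.exp (-‖z‖ ^ 2) : ℝ) : ℂ) := by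
    intro z
    unfold gw
    rw [← mul_pow, Complex.star_def, Complex.mul_conj']
    push_cast
    rw [← pow_mul]
  simp_rw [h]
  rw [integral_complex_ofReal, base_integral]
  have : ((2 * m : ℕ) + 2 : ℝ) / 2 = m + 1 := by push_cast; ring
  rw [this, Real.Gamma_nat_eq_factorial]
  push_cast
  rfl

theorem moment_ne {m m' : ℕ} (hm : m ≠ m') :
    ∫ z : ℂ, z ^ m * (star z) ^ m' * gw z = 0 := by
  set d : ℝ := (m : ℝ) - m' with hd
  have hd0 : d ≠ 0 := by
    rw [hd, sub_ne_zero]
    exact_mod_cast hm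
  let c : Circle := Circle.exp (Real.pi / d)
  have hc : (c : ℂ) ^ m * (star (c : ℂ)) ^ m' = -1 := by
    have h1 : (c : ℂ) = Complex.exp ((Real.pi / d : ℝ) * Complex.I) := by
      simp [c, Circle.coe_exp]
    have h2 : star (c : ℂ) = Complex.exp (-((Real.pi / d : ℝ) * Complex.I)) := by
      rw [h1, Complex.star_def, ← Complex.exp_conj]
      congr 1
      simp
    rw [h2, h1, ← Complex.exp_nat_mul, ← Complex.exp_nat_mul, ← Complex.exp_add]
    have h3 : (m : ℂ) * ((Real.pi / d : ℝ) * Complex.I) + (m' : ℂ) * (-((Real.pi / d : ℝ) * Complex.I))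
        = Real.pi * Complex.I := by
      have h4 : ((d : ℝ) : ℂ) ≠ 0 := by exact_mod_cast hd0
      have h5 : (m : ℂ) - m' = (d : ℂ) := by rw [hd]; push_cast; ring
      have h6 : (m : ℂ) * ((Real.pi / d : ℝ) * Complex.I) + (m' : ℂ) * (-((Real.pi / d : ℝ) * Complex.I))
          = ((m : ℂ) - m') * ((Real.pi / d : ℝ) * Complex.I) := by ring
      rw [h6, h5]
      push_cast
      field_simp
    rw [h3, Complex.exp_pi_mul_I]
  have hinv : ∫ z : ℂ, ((rotation c z) ^ m * (star (rotation c z)) ^ m' * gw (rotation c z))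
      = ∫ z : ℂ, z ^ m * (star z) ^ m' * gw z :=
    (rotation c).measurePreserving.integral_comp
      (rotation c).toHomeomorph.measurableEmbedding (fun z : ℂ => z ^ m * (star z) ^ m' * gw z)
  have hneg : ∀ z : ℂ, (rotation c z) ^ m * (star (rotation c z)) ^ m' * gw (rotation c z)
      = -(z ^ m * (star z) ^ m' * gw z) := by
    intro z
    have hg : gw (rotation c z) = gw z := by
      unfold gw
      rw [LinearIsometryEquiv.norm_map]
    rw [hg, rotation_apply, star_mul', mul_pow, mul_pow]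
    linear_combination (z ^ m * star z ^ m' * gw z) * hc
  simp_rw [hneg] at hinv
  rw [integral_neg] at hinv
  have : (2 : ℂ) * ∫ z : ℂ, z ^ m * (star z) ^ m' * gw z = 0 := by
    linear_combination -hinv
  simpa using this

theorem moment (m m' : ℕ) :
    ∫ z : ℂ, z ^ m * (star z) ^ m' * gw z
      = if m = m' then (Real.pi : ℂ) * (m.factorial : ℂ) else 0 := by
  split_ifs with h
  · subst h; exact moment_eq m
  · exact moment_ne h

end H864D
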