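import Mathlib
import Pool.Agent.H864D.Moment

set_option autoImplicit false

namespace H864D

open MeasureTheory

variable {K : Type*} [Fintype K] [DecidableEq K] {r : ℕ}

/-- size of a fibre. -/
def fib (f : Fin r → K) (k : K) : ℕ := Fintype.card {i // f i = k}

omit [Fintype K] in
theorem prod_fib [Fintype K] (f : Fin r → K) (z : K → ℂ) :
    ∏ i, z (f i) = ∏ k, z k ^ fib f k := by
  rw [← Finset.prod_fiberwise Finset.univ f]
  refine Finset.prod_congr rfl fun k _ => ?_
  rw [Finset.prod_congr rfl (g := fun _ => z k)]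
  · rw [Finset.prod_const, fib, Fintype.card_subtype]
  · intro i hi
    rw [(Finset.mem_filter.mp hi).2]

omit [Fintype K] in
theorem exists_perm {f g : Fin r → K} (h : ∀ k, fib f k = fib g k) :
    ∃ w : Equiv.Perm (Fin r), g ∘ w = f := by
  have e : ∀ k, {i // f i = k} ≃ {i // g i = k} := fun k => Fintype.equivOfCardEq (h k)
  refine ⟨(Equiv.sigmaFiberEquiv f).symm.trans
    ((Equiv.sigmaCongrRight e).trans (Equiv.sigmaFiberEquiv g)), ?_⟩
  funext i
  simp only [Function.comp_apply, Equiv.trans_apply]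
  have : (Equiv.sigmaFiberEquiv f).symm i = ⟨f i, ⟨i, rfl⟩⟩ := rfl
  rw [this]
  exact (e (f i) ⟨i, rfl⟩).2

theorem count (f g : Fin r → K) :
    (∑ w : Equiv.Perm (Fin r), if g ∘ w = f then (1 : ℂ) else 0)
      = if (∀ k, fib f k = fib g k) then ∏ k, ((fib f k).factorial : ℂ) else 0 := by
  split_ifs with h
  · obtain ⟨w0, hw0⟩ := exists_perm h
    have h1 : (∑ w : Equiv.Perm (Fin r), if g ∘ w = f then (1 : ℂ) else 0)
        = ∑ w : Equiv.Perm (Fin r), if f ∘ w = f then (1 : ℂ) else 0 := by
      refine (Fintype.sum_equiv (Equiv.mulLeft w0) _ _ fun w => ?_).symm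
      have : g ∘ (w0 * w : Equiv.Perm (Fin r)) = f ∘ w := by
        rw [← hw0]; rfl
      simp only [Equiv.coe_mulLeft, this]
    rw [h1, Finset.sum_boole]
    have h2 := DomMulAct.stabilizer_card f
    rw [Fintype.card_subtype] at h2
    rw [h2]
    push_cast
    rfl
  · apply Finset.sum_eq_zero
    intro w _
    rw [if_neg]
    intro hw
    apply h
    intro k
    unfold fib
    refine Fintype.card_congr ?_
    refine Equiv.subtypeEquiv w fun i => ?_
    rw [← hw]
    rfl

/-- Gaussian weight on `K → ℂ`. -/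
noncomputable def gW (z : K → ℂ) : ℂ := ∏ k, gw (z k)

theorem mono_form (f g : Fin r → K) (z : K → ℂ) :
    (∏ i, z (f i)) * (∏ i, star (z (g i))) * gW z
      = ∏ k, (z k ^ fib f k * (star (z k)) ^ fib g k * gw (z k)) := by
  rw [prod_fib f z, prod_fib g (fun k => star (z k)), gW, ← Finset.prod_mul_distrib,
    ← Finset.prod_mul_distrib]

theorem mono_int (f g : Fin r → K) :
    Integrable (fun z : K → ℂ => (∏ i, z (f i)) * (∏ i, star (z (g i))) * gW z) := by
  simp_rw [mono_form]
  exact Integrable.fintype_prod (fun k => mono_integrable (fib f k) (fib g k))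

theorem mono_eq (f g : Fin r → K) :
    ∫ z : K → ℂ, (∏ i, z (f i)) * (∏ i, star (z (g i))) * gW z
      = (Real.pi : ℂ) ^ (Fintype.card K) *
        ∑ w : Equiv.Perm (Fin r), if g ∘ w = f then (1 : ℂ) else 0 := by
  simp_rw [mono_form]
  rw [integral_fintype_prod_volume_eq_prod
    (f := fun k (x : ℂ) => x ^ fib f k * (star x) ^ fib g k * gw x)]
  simp_rw [moment]
  rw [count]
  split_ifs with h
  · rw [Finset.prod_congr rfl (g := fun k => (Real.pi : ℂ) * ((fib f k).factorial : ℂ))
      (fun k _ => by rw [if_pos (h k)]), Finset.prod_mul_distrib, Finset.prod_const,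
      Finset.card_univ]
  · push Not at h
    obtain ⟨k, hk⟩ := h
    rw [mul_zero]
    exact Finset.prod_eq_zero (Finset.mem_univ k) (by rw [if_neg hk])

theorem expand (a b : Fin r → K → ℂ) (z : K → ℂ) :
    (∏ i, ∑ k, a i k * z k) * (∏ i, star (∑ k, b i k * z k)) * gW z
      = ∑ f : Fin r → K, ∑ g : Fin r → K, ((∏ i, a i (f i)) * ∏ i, star (b i (g i))) *
        ((∏ i, z (f i)) * (∏ i, star (z (g i))) * gW z) := by
  have h1 : (∏ i, ∑ k, a i k * z k) = ∑ f : Fin r → K, (∏ i, a i (f i)) * ∏ i, z (f i) := by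
    rw [Finset.prod_univ_sum, Fintype.piFinset_univ]
    exact Finset.sum_congr rfl fun f _ => Finset.prod_mul_distrib
  have h2 : (∏ i, star (∑ k, b i k * z k))
      = ∑ g : Fin r → K, (∏ i, star (b i (g i))) * ∏ i, star (z (g i)) := by
    simp_rw [star_sum, star_mul']
    rw [Finset.prod_univ_sum, Fintype.piFinset_univ]
    exact Finset.sum_congr rfl fun f _ => Finset.prod_mul_distrib
  rw [h1, h2, Finset.sum_mul_sum, Finset.sum_mul]
  refine Finset.sum_congr rfl fun f _ => ?_
  rw [Finset.sum_mul]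
  refine Finset.sum_congr rfl fun g _ => ?_
  ring

theorem wick_integrable (a b : Fin r → K → ℂ) :
    Integrable (fun z : K → ℂ =>
      (∏ i, ∑ k, a i k * z k) * (∏ i, star (∑ k, b i k * z k)) * gW z) := by
  simp_rw [expand]
  exact integrable_finset_sum _ fun f _ => integrable_finset_sum _ fun g _ =>
    (mono_int f g).const_mul _

/-- **Wick's formula.** -/
theorem wick (a b : Fin r → K → ℂ) :
    ∫ z : K → ℂ, (∏ i, ∑ k, a i k * z k) * (∏ i, star (∑ k, b i k * z k)) * gW z
      = (Real.pi : ℂ) ^ (Fintype.card K) *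
        ∑ w : Equiv.Perm (Fin r), ∏ i, ∑ k, a i k * star (b (w i) k) := by
  simp_rw [expand]
  rw [integral_finset_sum _ fun f _ => integrable_finset_sum _ fun g _ =>
    (mono_int f g).const_mul _]
  have h1 : ∀ f : Fin r → K, (∫ z : K → ℂ, ∑ g : Fin r → K,
      ((∏ i, a i (f i)) * ∏ i, star (b i (g i))) *
        ((∏ i, z (f i)) * (∏ i, star (z (g i))) * gW z))
      = ∑ g : Fin r → K, ((∏ i, a i (f i)) * ∏ i, star (b i (g i))) *
        ((Real.pi : ℂ) ^ (Fintype.card K) *
        ∑ w : Equiv.Perm (Fin r), if g ∘ w = f then (1 : ℂ) else 0) := by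
    intro f
    rw [integral_finset_sum _ fun g _ => (mono_int f g).const_mul _]
    refine Finset.sum_congr rfl fun g _ => ?_
    rw [integral_const_mul, mono_eq]
  simp_rw [h1]
  have h2 : ∀ w : Equiv.Perm (Fin r), ∏ i, ∑ k, a i k * star (b (w i) k)
      = ∑ f : Fin r → K, ∑ g : Fin r → K, if g ∘ w = f then
        ((∏ i, a i (f i)) * ∏ i, star (b i (g i))) else 0 := by
    intro w
    rw [Finset.prod_univ_sum, Fintype.piFinset_univ]
    refine Finset.sum_congr rfl fun f _ => ?_
    rw [Finset.sum_eq_single (f ∘ (w⁻¹ : Equiv.Perm (Fin r)))]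
    · rw [if_pos (by funext i; simp), Finset.prod_mul_distrib]
      congr 1
      refine Fintype.prod_equiv w _ _ fun i => ?_
      simp
    · intro g _ hg
      rw [if_neg]
      intro h
      apply hg
      rw [← h]
      funext i
      simp
    · intro h
      exact absurd (Finset.mem_univ _) h
  simp_rw [h2]
  rw [Finset.sum_comm (s := (Finset.univ : Finset (Equiv.Perm (Fin r)))), Finset.mul_sum]
  refine Finset.sum_congr rfl fun f _ => ?_
  rw [Finset.sum_comm (s := (Finset.univ : Finset (Equiv.Perm (Fin r)))), Finset.mul_sum]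
  refine Finset.sum_congr rfl fun g _ => ?_
  rw [Finset.mul_sum, Finset.mul_sum, Finset.mul_sum]
  refine Finset.sum_congr rfl fun w _ => ?_
  split_ifs <;> ring

end H864D
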