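import Mathlib
import Pool.Agent.H864D.WickG
import Pool.Agent.H864D.Quat

set_option autoImplicit false

namespace H864D

open MeasureTheory

variable {r : ℕ}

/-- alternating sum over permutations of `Fin r ⊕ Fin r`. -/
noncomputable def Pf (G : Fin r → (Fin r ⊕ Fin r) → (Fin r ⊕ Fin r) → ℂ) : ℂ :=
  ∑ π : Equiv.Perm (Fin r ⊕ Fin r), ((Equiv.Perm.sign π : ℤ) : ℂ) *
    ∏ i, G i (π (Sum.inl i)) (π (Sum.inr i))

theorem pf_sym (G : Fin r → (Fin r ⊕ Fin r) → (Fin r ⊕ Fin r) → ℂ) (a : Fin r)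
    (hs : ∀ c c', G a c c' = G a c' c) : Pf G = 0 := by
  have h : Pf G = -Pf G := by
    unfold Pf
    rw [← Finset.sum_neg_distrib]
    refine Fintype.sum_equiv (Equiv.mulRight (Equiv.swap (Sum.inl a) (Sum.inr a))) _ _ fun π => ?_
    have hsign : ((Equiv.Perm.sign (π * Equiv.swap (Sum.inl a) (Sum.inr a)) : ℤ) : ℂ)
        = -((Equiv.Perm.sign π : ℤ) : ℂ) := by
      rw [Equiv.Perm.sign_mul, Equiv.Perm.sign_swap Sum.inl_ne_inr]
      push_cast
      ring
    have hprod : ∏ i, G i (π (Sum.inl i)) (π (Sum.inr i))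
        = ∏ i, G i ((π * Equiv.swap (Sum.inl a) (Sum.inr a)) (Sum.inl i))
          ((π * Equiv.swap (Sum.inl a) (Sum.inr a)) (Sum.inr i)) := by
      refine Finset.prod_congr rfl fun i _ => ?_
      by_cases hi : i = a
      · subst hi
        rw [Equiv.Perm.mul_apply, Equiv.Perm.mul_apply, Equiv.swap_apply_left,
          Equiv.swap_apply_right]
        exact hs _ _
      · rw [Equiv.Perm.mul_apply, Equiv.Perm.mul_apply,
          Equiv.swap_apply_of_ne_of_ne (by simpa using hi) Sum.inl_ne_inr,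
          Equiv.swap_apply_of_ne_of_ne Sum.inr_ne_inl (by simpa using hi)]
    rw [Equiv.coe_mulRight, hsign, ← hprod]
    ring
  have h2 : (2 : ℂ) * Pf G = 0 := by linear_combination h
  simpa using h2

theorem pf_step (G : Fin r → (Fin r ⊕ Fin r) → (Fin r ⊕ Fin r) → ℂ) (a : Fin r)
    (X Y : (Fin r ⊕ Fin r) → (Fin r ⊕ Fin r) → ℂ)
    (hs : ∀ c c', X c c' - Y c c' = X c' c - Y c' c) :
    Pf (Function.update G a X) = Pf (Function.update G a Y) := by
  have h := pf_sym (Function.update G a (fun c c' => X c c' - Y c c')) a (by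
    intro c c'
    simp only [Function.update_self]
    exact hs c c')
  rw [← sub_eq_zero, ← h]
  unfold Pf
  rw [← Finset.sum_sub_distrib]
  refine Finset.sum_congr rfl fun π _ => ?_
  rw [← Finset.mul_prod_erase Finset.univ _ (Finset.mem_univ a),
    ← Finset.mul_prod_erase Finset.univ _ (Finset.mem_univ a),
    ← Finset.mul_prod_erase Finset.univ _ (Finset.mem_univ a)]
  have e : ∀ Z : (Fin r ⊕ Fin r) → (Fin r ⊕ Fin r) → ℂ,
      ∏ i ∈ Finset.univ.erase a, Function.update G a Z i (π (Sum.inl i)) (π (Sum.inr i))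
        = ∏ i ∈ Finset.univ.erase a, G i (π (Sum.inl i)) (π (Sum.inr i)) := by
    intro Z
    refine Finset.prod_congr rfl fun i hi => ?_
    rw [Function.update_of_ne (Finset.ne_of_mem_erase hi)]
  rw [e, e, e]
  simp only [Function.update_self]
  ring

theorem pf_eq (G G' : Fin r → (Fin r ⊕ Fin r) → (Fin r ⊕ Fin r) → ℂ)
    (hs : ∀ i c c', G i c c' - G' i c c' = G i c' c - G' i c' c) : Pf G = Pf G' := by
  have key : ∀ T : Finset (Fin r), Pf (fun i => if i ∈ T then G' i else G i) = Pf G := by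
    intro T
    induction T using Finset.induction_on with
    | empty => simp
    | insert a T ha ih =>
      rw [← ih]
      have e1 : (fun i => if i ∈ insert a T then G' i else G i)
          = Function.update (fun i => if i ∈ T then G' i else G i) a (G' a) := by
        funext i
        by_cases hi : i = a
        · subst hi; simp
        · rw [Function.update_of_ne hi]
          simp [hi]
      have e2 : (fun i => if i ∈ T then G' i else G i)
          = Function.update (fun i => if i ∈ T then G' i else G i) a (G a) := by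
        funext i
        by_cases hi : i = a
        · subst hi; simp [ha]
        · rw [Function.update_of_ne hi]
      rw [e1]
      conv_rhs => rw [e2]
      exact (pf_step _ a _ _ (hs a)).symm
  have h := key Finset.univ
  simpa using h.symm

/-- block kernels. -/
def blk (F : Fin r → Fin r → Fin r → ℂ) (i : Fin r) (c c' : Fin r ⊕ Fin r) : ℂ :=
  Sum.elim (fun j => Sum.elim (fun _ => 0) (fun j' => F i j j') c') (fun _ => 0) c

theorem pf_blk (F : Fin r → Fin r → Fin r → ℂ) :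
    Pf (blk F) = ∑ σ : Equiv.Perm (Fin r), ∑ τ : Equiv.Perm (Fin r),
      ((Equiv.Perm.sign σ : ℤ) : ℂ) * ((Equiv.Perm.sign τ : ℤ) : ℂ) * ∏ i, F i (σ i) (τ i) := by
  classical
  rw [← Finset.sum_product', Finset.univ_product_univ]
  unfold Pf
  let φ : Equiv.Perm (Fin r) × Equiv.Perm (Fin r) → Equiv.Perm (Fin r ⊕ Fin r) :=
    fun p => Equiv.Perm.sumCongr p.1 p.2
  have hinj : Function.Injective φ := by
    intro p q h
    have := Equiv.Perm.sumCongrHom_injective (α := Fin r) (β := Fin r) (a₁ := p) (a₂ := q) h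
    exact this
  have h1 : ∀ p : Equiv.Perm (Fin r) × Equiv.Perm (Fin r),
      ((Equiv.Perm.sign p.1 : ℤ) : ℂ) * ((Equiv.Perm.sign p.2 : ℤ) : ℂ)
        * ∏ i, F i (p.1 i) (p.2 i)
      = ((Equiv.Perm.sign (φ p) : ℤ) : ℂ) *
        ∏ i, blk F i (φ p (Sum.inl i)) (φ p (Sum.inr i)) := by
    intro p
    simp only [φ, Equiv.Perm.sign_sumCongr, Equiv.Perm.sumCongr_apply, Sum.map_inl, Sum.map_inr,
      blk, Sum.elim_inl, Sum.elim_inr]
    push_cast
    ring
  rw [Finset.sum_congr rfl fun p _ => h1 p]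
  rw [← Finset.sum_image (s := Finset.univ) (g := φ)
    (f := fun π => ((Equiv.Perm.sign π : ℤ) : ℂ) * ∏ i, blk F i (π (Sum.inl i)) (π (Sum.inr i)))
    (fun p _ q _ h => hinj h)]
  symm
  refine Finset.sum_subset (Finset.subset_univ _) fun π _ hπ => ?_
  rw [mul_eq_zero]
  right
  by_contra hne
  apply hπ
  rw [Finset.mem_image]
  have hmaps : Set.MapsTo π (Set.range Sum.inl) (Set.range Sum.inl) := by
    rintro _ ⟨i, rfl⟩
    have h2 : blk F i (π (Sum.inl i)) (π (Sum.inr i)) ≠ 0 := by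
      intro h0
      exact hne (Finset.prod_eq_zero (Finset.mem_univ i) h0)
    cases hc : π (Sum.inl i) with
    | inl j => exact ⟨j, rfl⟩
    | inr j => exact absurd (by rw [hc]; rfl) h2
  obtain ⟨p, hp⟩ := Equiv.Perm.mem_sumCongrHom_range_of_perm_mapsTo_inl hmaps
  exact ⟨p, Finset.mem_univ _, hp⟩

/-- The alternating sum (hyperdeterminant) of a tensor `F a b i j`. -/
noncomputable def Hdet (F : Fin r → Fin r → Fin r → Fin r → ℂ) : ℂ :=
  ∑ w : Equiv.Perm (Fin r), ∑ σ : Equiv.Perm (Fin r), ∑ τ : Equiv.Perm (Fin r),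
    ((Equiv.Perm.sign w : ℤ) : ℂ) * (((Equiv.Perm.sign σ : ℤ) : ℂ) *
      ((Equiv.Perm.sign τ : ℤ) : ℂ) * ∏ i, F i (w i) (σ i) (τ i))

variable {K L : Type*} [Fintype K] [DecidableEq K] [Fintype L] [DecidableEq L]

def top (A : K → Matrix (Fin r) (Fin r) ℂ) (B : L → Matrix (Fin r) (Fin r) ℂ)
    (i : Fin r) (c : Fin r ⊕ Fin r) : K ⊕ L → ℂ :=
  Sum.elim (fun j => Sum.elim (fun k => A k i j) (fun _ => 0))
    (fun j => Sum.elim (fun _ => 0) (fun l => B l i j)) c

def bot (A : K → Matrix (Fin r) (Fin r) ℂ) (B : L → Matrix (Fin r) (Fin r) ℂ)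
    (i : Fin r) (c : Fin r ⊕ Fin r) : K ⊕ L → ℂ :=
  Sum.elim (fun j => Sum.elim (fun _ => 0) (fun l => -B l i j))
    (fun j => Sum.elim (fun k => A k i j) (fun _ => 0)) c

/-- the tensor of `X ↦ ∑ A X A* + ∑ B Xᵀ B*`. -/
noncomputable def dec (A : K → Matrix (Fin r) (Fin r) ℂ) (B : L → Matrix (Fin r) (Fin r) ℂ)
    (a b i j : Fin r) : ℂ :=
  ∑ k, A k a i * star (A k b j) + ∑ l, B l a j * star (B l b i)

/-- the quaternionic matrix. -/
noncomputable def QM (A : K → Matrix (Fin r) (Fin r) ℂ) (B : L → Matrix (Fin r) (Fin r) ℂ)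
    (z : K ⊕ L → ℂ) : Matrix (Fin r ⊕ Fin r) (Fin r ⊕ Fin r) ℂ :=
  Matrix.fromBlocks (∑ k, z (Sum.inl k) • A k) (∑ l, z (Sum.inr l) • B l)
    (-((∑ l, z (Sum.inr l) • B l).map star)) ((∑ k, z (Sum.inl k) • A k).map star)

theorem QM_inl (A : K → Matrix (Fin r) (Fin r) ℂ) (B : L → Matrix (Fin r) (Fin r) ℂ)
    (z : K ⊕ L → ℂ) (i : Fin r) (c : Fin r ⊕ Fin r) :
    QM A B z (Sum.inl i) c = ∑ k, top A B i c k * z k := by
  rcases c with j | j
  · simp [QM, top, Matrix.sum_apply, Fintype.sum_sum_type, mul_comm]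
  · simp [QM, top, Matrix.sum_apply, Fintype.sum_sum_type, mul_comm]

theorem QM_inr (A : K → Matrix (Fin r) (Fin r) ℂ) (B : L → Matrix (Fin r) (Fin r) ℂ)
    (z : K ⊕ L → ℂ) (i : Fin r) (c : Fin r ⊕ Fin r) :
    QM A B z (Sum.inr i) c = star (∑ k, bot A B i c k * z k) := by
  rcases c with j | j
  · simp [QM, bot, Matrix.sum_apply, Fintype.sum_sum_type, mul_comm]
  · simp [QM, bot, Matrix.sum_apply, Fintype.sum_sum_type, mul_comm]

theorem det_QM (A : K → Matrix (Fin r) (Fin r) ℂ) (B : L → Matrix (Fin r) (Fin r) ℂ)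
    (z : K ⊕ L → ℂ) :
    (QM A B z).det * gW z = ∑ π : Equiv.Perm (Fin r ⊕ Fin r), ((Equiv.Perm.sign π : ℤ) : ℂ) *
      ((∏ i, ∑ k, top A B i (π (Sum.inl i)) k * z k) *
        (∏ i, star (∑ k, bot A B i (π (Sum.inr i)) k * z k)) * gW z) := by
  rw [← Matrix.det_transpose, Matrix.det_apply', Finset.sum_mul]
  refine Finset.sum_congr rfl fun π _ => ?_
  simp only [Matrix.transpose_apply]
  rw [Fintype.prod_sum_type]
  simp only [QM_inl, QM_inr]
  ring

theorem integrable_QM (A : K → Matrix (Fin r) (Fin r) ℂ) (B : L → Matrix (Fin r) (Fin r) ℂ) :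
    Integrable (fun z : K ⊕ L → ℂ => (QM A B z).det * gW z) := by
  simp_rw [det_QM]
  exact integrable_finset_sum _ fun π _ => (wick_integrable _ _).const_mul _

/-- **The quaternionic integral formula for the hyperdeterminant.** -/
theorem integral_QM (A : K → Matrix (Fin r) (Fin r) ℂ) (B : L → Matrix (Fin r) (Fin r) ℂ) :
    ∫ z : K ⊕ L → ℂ, (QM A B z).det * gW z
      = (Real.pi : ℂ) ^ (Fintype.card (K ⊕ L)) * Hdet (dec A B) := by
  simp_rw [det_QM]
  rw [integral_finset_sum _ fun π _ => (wick_integrable _ _).const_mul _]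
  simp_rw [integral_const_mul, wick]
  unfold Hdet
  have h1 : ∀ w : Equiv.Perm (Fin r),
      (∑ π : Equiv.Perm (Fin r ⊕ Fin r), ((Equiv.Perm.sign π : ℤ) : ℂ) *
        ∏ i, ∑ k, top A B i (π (Sum.inl i)) k * star (bot A B (w i) (π (Sum.inr (w i))) k))
      = ∑ σ : Equiv.Perm (Fin r), ∑ τ : Equiv.Perm (Fin r),
        ((Equiv.Perm.sign w : ℤ) : ℂ) * (((Equiv.Perm.sign σ : ℤ) : ℂ) *
          ((Equiv.Perm.sign τ : ℤ) : ℂ) * ∏ i, dec A B i (w i) (σ i) (τ i)) := by
    intro w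
    have h2 : (∑ π : Equiv.Perm (Fin r ⊕ Fin r), ((Equiv.Perm.sign π : ℤ) : ℂ) *
        ∏ i, ∑ k, top A B i (π (Sum.inl i)) k * star (bot A B (w i) (π (Sum.inr (w i))) k))
        = ((Equiv.Perm.sign w : ℤ) : ℂ) * Pf (fun i c c' =>
          ∑ k, top A B i c k * star (bot A B (w i) c' k)) := by
      unfold Pf
      rw [Finset.mul_sum]
      refine Fintype.sum_equiv (Equiv.mulRight (Equiv.Perm.sumCongr 1 w)) _ _ fun π => ?_
      have hsign : ((Equiv.Perm.sign (π * Equiv.Perm.sumCongr 1 w) : ℤ) : ℂ)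
          = ((Equiv.Perm.sign π : ℤ) : ℂ) * ((Equiv.Perm.sign w : ℤ) : ℂ) := by
        rw [Equiv.Perm.sign_mul, Equiv.Perm.sign_sumCongr]
        push_cast
        simp
      have hw2 : ((Equiv.Perm.sign w : ℤ) : ℂ) * ((Equiv.Perm.sign w : ℤ) : ℂ) = 1 := by
        rcases Int.units_eq_one_or (Equiv.Perm.sign w) with h | h <;> rw [h] <;> simp
      rw [Equiv.coe_mulRight, hsign]
      simp only [Equiv.Perm.mul_apply, Equiv.Perm.sumCongr_apply, Sum.map_inl, Sum.map_inr,
        Equiv.Perm.one_apply]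
      linear_combination (-((Equiv.Perm.sign π : ℤ) : ℂ) *
        ∏ i, ∑ k, top A B i (π (Sum.inl i)) k * star (bot A B (w i) (π (Sum.inr (w i))) k)) * hw2
    have h3 : Pf (fun i c c' => ∑ k, top A B i c k * star (bot A B (w i) c' k))
        = Pf (blk (fun i j j' => dec A B i (w i) j j')) := by
      refine pf_eq _ _ fun i c c' => ?_
      rcases c with j | j <;> rcases c' with j' | j' <;>
        simp [top, bot, blk, dec, Fintype.sum_sum_type]
    rw [h2, h3, pf_blk, Finset.mul_sum]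
    refine Finset.sum_congr rfl fun σ _ => ?_
    rw [Finset.mul_sum]
  rw [← Finset.sum_congr rfl fun w _ => h1 w, Finset.sum_comm, Finset.mul_sum]
  refine Finset.sum_congr rfl fun π _ => ?_
  rw [← Finset.mul_sum]
  ring

end H864D
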