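import Mathlib
import Pool.Agent.H864D.Comb

set_option autoImplicit false

namespace H864D

open MeasureTheory

/-- the maximal rank lemma. -/
theorem rank_lemma {ι : Type*} [Fintype ι] [DecidableEq ι] (M0 M1 : Matrix ι ι ℂ)
    (hmax : ∀ t : ℝ, (M0 + (t : ℂ) • M1).rank ≤ M0.rank) (v w : ι → ℂ)
    (hv : M0.mulVec v = 0) (hw : Matrix.vecMul w M0 = 0) : w ⬝ᵥ (M1.mulVec v) = 0 := by
  by_contra hne
  set s := M0.rank with hs
  have hfr : Module.finrank ℂ (LinearMap.range M0.mulVecLin) = s := rfl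
  let b := Module.finBasisOfFinrankEq ℂ (LinearMap.range M0.mulVecLin) hfr
  have hu : ∀ i, ∃ u : ι → ℂ, M0.mulVec u = (b i : ι → ℂ) := fun i => (b i).2
  choose u hu using hu
  have hlin0 : LinearIndependent ℂ (fun i => M0.mulVec (u i)) := by
    have h1 : LinearIndependent ℂ (fun i => ((b i : LinearMap.range M0.mulVecLin) : ι → ℂ)) :=
      b.linearIndependent.map' (Submodule.subtype _) (Submodule.ker_subtype _)
    have h2 : (fun i => M0.mulVec (u i))
        = fun i => ((b i : LinearMap.range M0.mulVecLin) : ι → ℂ) := funext hu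
    rw [h2]
    exact h1
  let x : ℝ → Fin (s + 1) → (ι → ℂ) := fun t =>
    Fin.cons (M1.mulVec v) (fun i => (M0 + (t : ℂ) • M1).mulVec (u i))
  have hx0 : LinearIndependent ℂ (x 0) := by
    have hx0' : x 0 = Fin.cons (M1.mulVec v) (fun i => M0.mulVec (u i)) := by
      simp only [x, Complex.ofReal_zero, zero_smul, add_zero]
    rw [hx0', linearIndependent_finCons]
    refine ⟨hlin0, ?_⟩
    intro hmem
    apply hne
    have hsub : Submodule.span ℂ (Set.range fun i => M0.mulVec (u i))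
        ≤ LinearMap.range M0.mulVecLin := by
      rw [Submodule.span_le]
      rintro _ ⟨i, rfl⟩
      exact ⟨u i, rfl⟩
    obtain ⟨y, hy⟩ := hsub hmem
    rw [← hy, Matrix.mulVecLin_apply, Matrix.dotProduct_mulVec, hw, zero_dotProduct]
  have hcont : Continuous x := by
    refine continuous_pi fun j => ?_
    refine Fin.cases ?_ (fun i => ?_) j
    · simp only [x, Fin.cons_zero]
      exact continuous_const
    · simp only [x, Fin.cons_succ]
      simp_rw [Matrix.add_mulVec, Matrix.smul_mulVec]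
      fun_prop
  have hopen : IsOpen {t : ℝ | LinearIndependent ℂ (x t)} :=
    isOpen_setOf_linearIndependent.preimage hcont
  obtain ⟨ε, hε, hball⟩ := Metric.isOpen_iff.mp hopen 0 hx0
  have ht : LinearIndependent ℂ (x (ε / 2)) := by
    apply hball
    rw [Metric.mem_ball, Real.dist_eq, sub_zero, abs_of_pos (by positivity)]
    linarith
  have hspan : Submodule.span ℂ (Set.range (x (ε / 2)))
      ≤ LinearMap.range (M0 + ((ε / 2 : ℝ) : ℂ) • M1).mulVecLin := by
    rw [Submodule.span_le]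
    rintro _ ⟨j, rfl⟩
    refine Fin.cases ?_ (fun i => ?_) j
    · refine ⟨(((ε / 2 : ℝ) : ℂ))⁻¹ • v, ?_⟩
      have hε0 : ((ε / 2 : ℝ) : ℂ) ≠ 0 := by
        exact_mod_cast (by positivity : (ε / 2 : ℝ) ≠ 0)
      rw [Matrix.mulVecLin_apply, Matrix.mulVec_smul, Matrix.add_mulVec, hv, zero_add,
        Matrix.smul_mulVec, smul_smul, inv_mul_cancel₀ hε0, one_smul]
      simp only [x, Fin.cons_zero]
    · exact ⟨u i, by simp only [x, Fin.cons_succ, Matrix.mulVecLin_apply]⟩
  have h1 := Submodule.finrank_mono hspan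
  rw [finrank_span_eq_card ht, Fintype.card_fin] at h1
  have h2 := hmax (ε / 2)
  have h3 : (M0 + ((ε / 2 : ℝ) : ℂ) • M1).rank
      = Module.finrank ℂ (LinearMap.range (M0 + ((ε / 2 : ℝ) : ℂ) • M1).mulVecLin) := rfl
  omega

variable {r : ℕ} {K L : Type*} [Fintype K] [DecidableEq K] [Fintype L] [DecidableEq L]

theorem QM_add (A : K → Matrix (Fin r) (Fin r) ℂ) (B : L → Matrix (Fin r) (Fin r) ℂ)
    (z z' : K ⊕ L → ℂ) (t : ℝ) :
    QM A B (fun k => z k + t * z' k) = QM A B z + (t : ℂ) • QM A B z' := by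
  ext p q
  rcases p with i | i
  · rw [Matrix.add_apply, Matrix.smul_apply, QM_inl, QM_inl, QM_inl, smul_eq_mul,
      Finset.mul_sum, ← Finset.sum_add_distrib]
    exact Finset.sum_congr rfl fun k _ => by ring
  · rw [Matrix.add_apply, Matrix.smul_apply, QM_inr, QM_inr, QM_inr, smul_eq_mul]
    have ht : (t : ℂ) = star (t : ℂ) := by simp
    rw [ht, ← star_mul', ← star_add, ← ht]
    congr 1
    rw [Finset.mul_sum, ← Finset.sum_add_distrib]
    exact Finset.sum_congr rfl fun k _ => by ring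

theorem exists_max (A : K → Matrix (Fin r) (Fin r) ℂ) (B : L → Matrix (Fin r) (Fin r) ℂ) :
    ∃ z0 : K ⊕ L → ℂ, ∀ z, (QM A B z).rank ≤ (QM A B z0).rank := by
  classical
  let S : Set ℕ := {n | ∃ z, (QM A B z).rank = n}
  have hne : S.Nonempty := ⟨_, 0, rfl⟩
  have hbdd : BddAbove S := by
    refine ⟨Fintype.card (Fin r ⊕ Fin r), ?_⟩
    rintro n ⟨z, rfl⟩
    exact Matrix.rank_le_card_width _
  obtain ⟨z0, hz0⟩ := Nat.sSup_mem hne hbdd
  exact ⟨z0, fun z => by rw [hz0]; exact le_csSup hbdd ⟨z, rfl⟩⟩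

theorem sw {r : ℕ} {X : Type*} [Fintype X] (f : X → Fin r → Fin r → ℂ) :
    ∑ k, ∑ i, ∑ j, f k i j = ∑ i, ∑ j, ∑ k, f k i j := by
  rw [Finset.sum_comm]
  exact Finset.sum_congr rfl fun i _ => Finset.sum_comm

theorem QM_mulVec (A : K → Matrix (Fin r) (Fin r) ℂ) (B : L → Matrix (Fin r) (Fin r) ℂ)
    (z : K ⊕ L → ℂ) (p q v1 v2 : Fin r → ℂ) :
    (Sum.elim p q) ⬝ᵥ ((QM A B z).mulVec (Sum.elim v1 v2))
      = ∑ k, z (Sum.inl k) * (p ⬝ᵥ (A k).mulVec v1)
        + ∑ l, z (Sum.inr l) * (p ⬝ᵥ (B l).mulVec v2)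
        - ∑ l, star (z (Sum.inr l)) * star (star q ⬝ᵥ (B l).mulVec (star v1))
        + ∑ k, star (z (Sum.inl k)) * star (star q ⬝ᵥ (A k).mulVec (star v2)) := by
  have hA : ∀ (C : Matrix (Fin r) (Fin r) ℂ) (a b : Fin r → ℂ),
      a ⬝ᵥ C.mulVec b = ∑ i, ∑ j, a i * C i j * b j := by
    intro C a b
    simp only [dotProduct, Matrix.mulVec, Finset.mul_sum]
    exact Finset.sum_congr rfl fun i _ => Finset.sum_congr rfl fun j _ => by ring
  have h1 : (Sum.elim p q) ⬝ᵥ ((QM A B z).mulVec (Sum.elim v1 v2))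
      = ∑ i, ∑ j, p i * (∑ k, z (Sum.inl k) * A k i j) * v1 j
        + ∑ i, ∑ j, p i * (∑ l, z (Sum.inr l) * B l i j) * v2 j
        - ∑ i, ∑ j, q i * (∑ l, star (z (Sum.inr l)) * star (B l i j)) * v1 j
        + ∑ i, ∑ j, q i * (∑ k, star (z (Sum.inl k)) * star (A k i j)) * v2 j := by
    simp only [dotProduct, Matrix.mulVec, Fintype.sum_sum_type, Sum.elim_inl, Sum.elim_inr, QM,
      Matrix.fromBlocks_apply₁₁, Matrix.fromBlocks_apply₁₂, Matrix.fromBlocks_apply₂₁,
      Matrix.fromBlocks_apply₂₂, Matrix.sum_apply, Matrix.smul_apply, smul_eq_mul,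
      Matrix.neg_apply, Matrix.map_apply, star_sum, star_mul']
    simp only [mul_add, Finset.mul_sum, Finset.sum_mul, Finset.sum_add_distrib, neg_mul,
      mul_neg, Finset.sum_neg_distrib, ← mul_assoc]
    ring
  rw [h1]
  simp only [hA, star_sum, star_mul', star_star, Pi.star_apply, Finset.mul_sum, Finset.sum_mul]
  rw [← sw (fun k i j => p i * (z (Sum.inl k) * A k i j) * v1 j),
    ← sw (fun l i j => p i * (z (Sum.inr l) * B l i j) * v2 j),
    ← sw (fun l i j => q i * (star (z (Sum.inr l)) * star (B l i j)) * v1 j),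
    ← sw (fun k i j => q i * (star (z (Sum.inl k)) * star (A k i j)) * v2 j)]
  congr 1
  · congr 1
    · congr 1
      · exact Finset.sum_congr rfl fun i _ => Finset.sum_congr rfl fun j _ =>
          Finset.sum_congr rfl fun k _ => by ring
      · exact Finset.sum_congr rfl fun i _ => Finset.sum_congr rfl fun j _ =>
          Finset.sum_congr rfl fun k _ => by ring
    · exact Finset.sum_congr rfl fun i _ => Finset.sum_congr rfl fun j _ =>
        Finset.sum_congr rfl fun k _ => by ring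
  · exact Finset.sum_congr rfl fun i _ => Finset.sum_congr rfl fun j _ =>
      Finset.sum_congr rfl fun k _ => by ring

/-- separation of real-linear coefficients. -/
theorem sep (a : K → ℂ) (b : L → ℂ) (c : L → ℂ) (d : K → ℂ)
    (h : ∀ z : K ⊕ L → ℂ, ∑ k, z (Sum.inl k) * a k + ∑ l, z (Sum.inr l) * b l
      - ∑ l, star (z (Sum.inr l)) * star (c l) + ∑ k, star (z (Sum.inl k)) * star (d k) = 0) :
    (∀ k, a k = 0 ∧ d k = 0) ∧ (∀ l, b l = 0 ∧ c l = 0) := by
  classical
  constructor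
  · intro k
    have h1 := h (Pi.single (Sum.inl k) 1)
    have h2 := h (Pi.single (Sum.inl k) Complex.I)
    simp [Pi.single_apply, Finset.sum_ite_eq', apply_ite (starRingEnd ℂ)] at h1 h2
    have h3 : a k = 0 := by
      have : (2 : ℂ) * a k = 0 := by
        linear_combination h1 - Complex.I * h2 + (a k - (starRingEnd ℂ) (d k)) * Complex.I_mul_I
      simpa using this
    refine ⟨h3, ?_⟩
    rw [h3] at h1
    simpa using h1
  · intro l
    have h1 := h (Pi.single (Sum.inr l) 1)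
    have h2 := h (Pi.single (Sum.inr l) Complex.I)
    simp [Pi.single_apply, Finset.sum_ite_eq', apply_ite (starRingEnd ℂ)] at h1 h2
    have h3 : b l = 0 := by
      have : (2 : ℂ) * b l = 0 := by
        linear_combination h1 - Complex.I * h2 + (b l + (starRingEnd ℂ) (c l)) * Complex.I_mul_I
      simpa using this
    refine ⟨h3, ?_⟩
    rw [h3] at h1
    simpa using h1

/-- The nondegeneracy which strict positivity of the map gives. -/
def ND (A : K → Matrix (Fin r) (Fin r) ℂ) (B : L → Matrix (Fin r) (Fin r) ℂ) : Prop :=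
  ∀ x y : Fin r → ℂ, x ≠ 0 → y ≠ 0 →
    ¬ ((∀ k, y ⬝ᵥ (A k).mulVec x = 0) ∧ (∀ l, y ⬝ᵥ (B l).mulVec (star x) = 0))

theorem exists_det_ne (A : K → Matrix (Fin r) (Fin r) ℂ) (B : L → Matrix (Fin r) (Fin r) ℂ)
    (hnd : ND A B) : ∃ z : K ⊕ L → ℂ, (QM A B z).det ≠ 0 := by
  by_contra hall
  push Not at hall
  obtain ⟨z0, hz0⟩ := exists_max A B
  obtain ⟨v, hv0, hv⟩ := Matrix.exists_mulVec_eq_zero_iff.mpr (hall z0)
  obtain ⟨w, hw0, hw⟩ := Matrix.exists_vecMul_eq_zero_iff.mpr (hall z0)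
  obtain ⟨v1, v2, rfl⟩ : ∃ v1 v2, v = Sum.elim v1 v2 :=
    ⟨v ∘ Sum.inl, v ∘ Sum.inr, (Sum.elim_comp_inl_inr v).symm⟩
  obtain ⟨p, q, rfl⟩ : ∃ v1 v2, w = Sum.elim v1 v2 :=
    ⟨w ∘ Sum.inl, w ∘ Sum.inr, (Sum.elim_comp_inl_inr w).symm⟩
  have hw' : Matrix.vecMul (Sum.elim (star q) (-star p)) (QM A B z0) = 0 := by
    have e1 : ∀ j, ∑ i, p i * (∑ k, z0 (Sum.inl k) • A k) i j
        + ∑ i, q i * -(star ((∑ l, z0 (Sum.inr l) • B l) i j)) = 0 := by
      intro j
      have := congrFun hw (Sum.inl j)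
      simpa [Matrix.vecMul, dotProduct, Fintype.sum_sum_type, QM, Matrix.map_apply] using this
    have e2 : ∀ j, ∑ i, p i * (∑ l, z0 (Sum.inr l) • B l) i j
        + ∑ i, q i * (star ((∑ k, z0 (Sum.inl k) • A k) i j)) = 0 := by
      intro j
      have := congrFun hw (Sum.inr j)
      simpa [Matrix.vecMul, dotProduct, Fintype.sum_sum_type, QM, Matrix.map_apply] using this
    funext c
    rcases c with j | j
    · have h := congrArg star (e2 j)
      simp only [star_add, star_sum, star_mul', star_star, star_zero] at h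
      simp only [Matrix.vecMul, dotProduct, Fintype.sum_sum_type, Sum.elim_inl, Sum.elim_inr, QM,
        Matrix.fromBlocks_apply₁₁, Matrix.fromBlocks_apply₂₁, Matrix.neg_apply, Matrix.map_apply,
        Pi.star_apply, Pi.neg_apply, neg_mul_neg, Pi.zero_apply]
      rw [add_comm]
      exact h
    · have h := congrArg star (e1 j)
      simp only [star_add, star_sum, star_mul', star_star, star_zero, star_neg] at h
      simp only [Matrix.vecMul, dotProduct, Fintype.sum_sum_type, Sum.elim_inl, Sum.elim_inr, QM,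
        Matrix.fromBlocks_apply₁₂, Matrix.fromBlocks_apply₂₂, Matrix.neg_apply, Matrix.map_apply,
        Pi.star_apply, Pi.neg_apply, Pi.zero_apply]
      have h' := congrArg Neg.neg h
      rw [neg_add, neg_zero, ← Finset.sum_neg_distrib, ← Finset.sum_neg_distrib] at h'
      rw [add_comm, ← h']
      congr 1
      · exact Finset.sum_congr rfl fun i _ => by ring
      · exact Finset.sum_congr rfl fun i _ => by ring
  have hmax : ∀ (z : K ⊕ L → ℂ) (t : ℝ),
      (QM A B z0 + (t : ℂ) • QM A B z).rank ≤ (QM A B z0).rank := by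
    intro z t
    rw [← QM_add]
    exact hz0 _
  have k1 : ∀ z, (Sum.elim p q) ⬝ᵥ ((QM A B z).mulVec (Sum.elim v1 v2)) = 0 := fun z =>
    rank_lemma _ _ (hmax z) _ _ hv hw
  have k2 : ∀ z, (Sum.elim (star q) (-star p)) ⬝ᵥ ((QM A B z).mulVec (Sum.elim v1 v2)) = 0 :=
    fun z => rank_lemma _ _ (hmax z) _ _ hv hw'
  simp_rw [QM_mulVec] at k1 k2
  obtain ⟨s1, s2⟩ := sep _ _ _ _ k1
  obtain ⟨s3, s4⟩ := sep _ _ _ _ k2
  have hneg : ∀ (C : Matrix (Fin r) (Fin r) ℂ) (x : Fin r → ℂ),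
      star (-star p) ⬝ᵥ C.mulVec x = 0 → p ⬝ᵥ C.mulVec x = 0 := by
    intro C x h
    rw [star_neg, star_star, neg_dotProduct, neg_eq_zero] at h
    exact h
  have hp : p ≠ 0 ∨ star q ≠ 0 := by
    by_contra hpq
    push Not at hpq
    apply hw0
    obtain ⟨h1, h2⟩ := hpq
    rw [star_eq_zero] at h2
    subst h1 h2
    funext c
    rcases c with j | j <;> rfl
  have hvv : v1 ≠ 0 ∨ star v2 ≠ 0 := by
    by_contra hpq
    push Not at hpq
    apply hv0
    obtain ⟨h1, h2⟩ := hpq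
    rw [star_eq_zero] at h2
    subst h1 h2
    funext c
    rcases c with j | j <;> rfl
  rcases hp with hp | hq
  · rcases hvv with h1 | h2
    · exact hnd v1 p h1 hp ⟨fun k => (s1 k).1, fun l => hneg _ _ (s4 l).2⟩
    · exact hnd (star v2) p h2 hp ⟨fun k => hneg _ _ (s3 k).2, fun l => by
        rw [star_star]; exact (s2 l).1⟩
  · rcases hvv with h1 | h2
    · exact hnd v1 (star q) h1 hq ⟨fun k => (s3 k).1, fun l => (s2 l).2⟩
    · exact hnd (star v2) (star q) h2 hq ⟨fun k => (s1 k).2, fun l => by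
        rw [star_star]; exact (s4 l).1⟩

end H864D
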