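import Mathlib
import Pool.Agent.H864D.Pos

set_option autoImplicit false

namespace H864D

open MeasureTheory

variable {r : ℕ} {K L : Type*} [Fintype K] [DecidableEq K] [Fintype L] [DecidableEq L]

/-- real weight. -/
noncomputable def gR (z : K ⊕ L → ℂ) : ℝ := ∏ k, Real.exp (-‖z k‖ ^ 2)

theorem gR_pos (z : K ⊕ L → ℂ) : 0 < gR z := Finset.prod_pos fun _ _ => Real.exp_pos _

omit [DecidableEq K] [DecidableEq L] in
theorem gW_eq (z : K ⊕ L → ℂ) : gW z = (gR z : ℂ) := by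
  unfold gW gR gw
  push_cast
  rfl

theorem QM_det_eq (A : K → Matrix (Fin r) (Fin r) ℂ) (B : L → Matrix (Fin r) (Fin r) ℂ)
    (z : K ⊕ L → ℂ) : 0 ≤ (QM A B z).det.re ∧ (QM A B z).det = ((QM A B z).det.re : ℂ) := by
  obtain ⟨t, ht, h⟩ := det_blocks_nonneg (∑ k, z (Sum.inl k) • A k) (∑ l, z (Sum.inr l) • B l)
  have h' : (QM A B z).det = t := h
  rw [h', Complex.ofReal_re]
  exact ⟨ht, rfl⟩

theorem QM_cont (A : K → Matrix (Fin r) (Fin r) ℂ) (B : L → Matrix (Fin r) (Fin r) ℂ) :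
    Continuous fun z : K ⊕ L → ℂ => (QM A B z).det := by
  refine Continuous.matrix_det ?_
  refine continuous_matrix fun p q => ?_
  rcases p with i | i
  · simp_rw [QM_inl]
    fun_prop
  · simp_rw [QM_inr]
    fun_prop

theorem gR_cont : Continuous (gR : (K ⊕ L → ℂ) → ℝ) := by
  unfold gR
  fun_prop

/-- real integrand. -/
noncomputable def dR (A : K → Matrix (Fin r) (Fin r) ℂ) (B : L → Matrix (Fin r) (Fin r) ℂ)
    (z : K ⊕ L → ℂ) : ℝ := (QM A B z).det.re * gR z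

theorem dR_eq (A : K → Matrix (Fin r) (Fin r) ℂ) (B : L → Matrix (Fin r) (Fin r) ℂ)
    (z : K ⊕ L → ℂ) : (QM A B z).det * gW z = (dR A B z : ℂ) := by
  rw [gW_eq, dR, (QM_det_eq A B z).2]
  push_cast
  rw [Complex.ofReal_re]

theorem dR_nonneg (A : K → Matrix (Fin r) (Fin r) ℂ) (B : L → Matrix (Fin r) (Fin r) ℂ)
    (z : K ⊕ L → ℂ) : 0 ≤ dR A B z :=
  mul_nonneg (QM_det_eq A B z).1 (gR_pos z).le

theorem dR_integrable (A : K → Matrix (Fin r) (Fin r) ℂ) (B : L → Matrix (Fin r) (Fin r) ℂ) :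
    Integrable (dR A B) := by
  have h := (integrable_QM A B).re
  refine h.congr (Filter.Eventually.of_forall fun z => ?_)
  simp only [dR_eq]
  simp

theorem hdet_eq (A : K → Matrix (Fin r) (Fin r) ℂ) (B : L → Matrix (Fin r) (Fin r) ℂ) :
    Hdet (dec A B) = (((Real.pi ^ (Fintype.card (K ⊕ L)))⁻¹ * ∫ z, dR A B z : ℝ) : ℂ) := by
  have h := integral_QM A B
  simp_rw [dR_eq] at h
  rw [integral_complex_ofReal] at h
  have hpi : (Real.pi : ℂ) ^ (Fintype.card (K ⊕ L)) ≠ 0 :=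
    pow_ne_zero _ (by exact_mod_cast Real.pi_ne_zero)
  push_cast
  rw [h, ← mul_assoc, inv_mul_cancel₀ hpi, one_mul]

/-- The hyperdeterminant of a decomposable tensor is nonnegative. -/
theorem hdet_nonneg (A : K → Matrix (Fin r) (Fin r) ℂ) (B : L → Matrix (Fin r) (Fin r) ℂ) :
    ∃ t : ℝ, 0 ≤ t ∧ Hdet (dec A B) = t := by
  refine ⟨_, ?_, hdet_eq A B⟩
  exact mul_nonneg (by positivity) (integral_nonneg fun z => dR_nonneg A B z)

/-- The hyperdeterminant of a strictly positive decomposable tensor is positive. -/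
theorem hdet_pos (A : K → Matrix (Fin r) (Fin r) ℂ) (B : L → Matrix (Fin r) (Fin r) ℂ)
    (hnd : ND A B) : ∃ t : ℝ, 0 < t ∧ Hdet (dec A B) = t := by
  refine ⟨_, ?_, hdet_eq A B⟩
  have hpi : 0 < (Real.pi ^ (Fintype.card (K ⊕ L)))⁻¹ := by positivity
  refine mul_pos hpi ?_
  rw [integral_pos_iff_support_of_nonneg (fun z => dR_nonneg A B z) (dR_integrable A B)]
  have hc : Continuous (dR A B) := (Complex.continuous_re.comp (QM_cont A B)).mul gR_cont
  refine hc.isOpen_support.measure_pos volume ?_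
  obtain ⟨z, hz⟩ := exists_det_ne A B hnd
  refine ⟨z, ?_⟩
  rw [Function.mem_support, dR]
  refine mul_ne_zero ?_ (gR_pos z).ne'
  intro h0
  apply hz
  rw [(QM_det_eq A B z).2, h0, Complex.ofReal_zero]

end H864D
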