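import Mathlib
import Pool.Agent.H864D.Main

set_option autoImplicit false

namespace H864D

open scoped ComplexOrder

/-- The curvature `Θ` evaluated on the pair `(u, v̄)` of tangent vectors: an endomorphism of the
fibre, written in a unitary frame. -/
def curv {n r : ℕ} (Θ : Fin n → Fin n → Matrix (Fin r) (Fin r) ℂ) (u v : Fin n → ℂ) :
    Matrix (Fin r) (Fin r) ℂ :=
  ∑ i, ∑ j, (u i * star (v j)) • Θ i j

/-- Griffiths positivity (unitary frame). -/
def GriffithsPositive {n r : ℕ} (Θ : Fin n → Fin n → Matrix (Fin r) (Fin r) ℂ) : Prop :=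
  ∀ ξ : Fin n → ℂ, ξ ≠ 0 → (curv Θ ξ ξ).PosDef

/-- Nakano semipositivity (unitary frame):
`∑ (Θ i j) a b * u b i * conj (u a j) ≥ 0` for all `u`. -/
def NakanoSemipositive {n r : ℕ} (Θ : Fin n → Fin n → Matrix (Fin r) (Fin r) ℂ) : Prop :=
  (Matrix.of fun p q : Fin r × Fin n => Θ q.2 p.2 p.1 q.1).PosSemidef

/-- Dual Nakano semipositivity (unitary frame):
`∑ (Θ i j) a b * conj (u a i) * u b j ≥ 0` for all `u`. -/
def DualNakanoSemipositive {n r : ℕ} (Θ : Fin n → Fin n → Matrix (Fin r) (Fin r) ℂ) : Prop :=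
  (Matrix.of fun p q : Fin r × Fin n => Θ p.2 q.2 p.1 q.1).PosSemidef

/-- The Chern form `c_k` of `Θ` evaluated on `v 0, …, v (k-1)`: the sum over the principal `k × k`
minors of the matrix of `(1,1)`-forms `Θ`, the product of `k` forms of type `(1,1)` being the
alternating sum over the permutations `σ`, `τ` of the tangent vectors. -/
noncomputable def chernForm {n r : ℕ} (k : ℕ) (Θ : Fin n → Fin n → Matrix (Fin r) (Fin r) ℂ)
    (v : Fin k → Fin n → ℂ) : ℂ :=
  ∑ S : Fin k ↪o Fin r, ∑ ρ : Equiv.Perm (Fin k), ((Equiv.Perm.sign ρ : ℤ) : ℂ) *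
    ∑ σ : Equiv.Perm (Fin k), ∑ τ : Equiv.Perm (Fin k),
      ((Equiv.Perm.sign σ : ℤ) : ℂ) * ((Equiv.Perm.sign τ : ℤ) : ℂ) *
        ∏ i, curv Θ (v (σ i)) (v (τ i)) (S i) (S (ρ i))

theorem chernForm_eq {n r : ℕ} (k : ℕ) (Θ : Fin n → Fin n → Matrix (Fin r) (Fin r) ℂ)
    (v : Fin k → Fin n → ℂ) :
    chernForm k Θ v = ∑ S : Fin k ↪o Fin r,
      Hdet (fun a b s t : Fin k => curv Θ (v s) (v t) (S a) (S b)) := by
  unfold chernForm Hdet
  refine Finset.sum_congr rfl fun S _ => Finset.sum_congr rfl fun ρ _ => ?_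
  rw [Finset.mul_sum]
  refine Finset.sum_congr rfl fun σ _ => ?_
  rw [Finset.mul_sum]

theorem curv_apply {n r : ℕ} (Θ : Fin n → Fin n → Matrix (Fin r) (Fin r) ℂ) (u v : Fin n → ℂ)
    (a b : Fin r) : curv Θ u v a b = ∑ i, ∑ j, u i * star (v j) * Θ i j a b := by
  simp only [curv, Matrix.sum_apply, Matrix.smul_apply, smul_eq_mul]

theorem exists_factor {N : Type*} [Fintype N] [DecidableEq N] {A : Matrix N N ℂ}
    (hA : A.PosSemidef) : ∃ D : Matrix N N ℂ, A = D.conjTranspose * D := by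
  open scoped MatrixOrder Matrix.Norms.L2Operator in
  exact CStarAlgebra.nonneg_iff_eq_star_mul_self.mp hA.nonneg

/-- Kraus operators of the restricted tensor. -/
theorem exists_kraus {n r k : ℕ} (Θ Θ₁ Θ₂ : Fin n → Fin n → Matrix (Fin r) (Fin r) ℂ)
    (hdec : ∀ i j, Θ i j = Θ₁ i j + Θ₂ i j) (h1 : NakanoSemipositive Θ₁)
    (h2 : DualNakanoSemipositive Θ₂) (v : Fin k → Fin n → ℂ) (S : Fin k → Fin r) :
    ∃ A B : (Fin r × Fin n) → Matrix (Fin k) (Fin k) ℂ,
      (fun a b s t : Fin k => curv Θ (v s) (v t) (S a) (S b)) = dec A B := by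
  obtain ⟨B1, hB1⟩ := exists_factor h1
  obtain ⟨B2, hB2⟩ := exists_factor h2
  have e1 : ∀ i j a b, Θ₁ i j a b = ∑ p, star (B1 p (a, j)) * B1 p (b, i) := by
    intro i j a b
    have := congrFun (congrFun hB1 (a, j)) (b, i)
    simpa [Matrix.mul_apply] using this
  have e2 : ∀ i j a b, Θ₂ i j a b = ∑ p, star (B2 p (a, i)) * B2 p (b, j) := by
    intro i j a b
    have := congrFun (congrFun hB2 (a, i)) (b, j)
    simpa [Matrix.mul_apply] using this
  refine ⟨fun p => Matrix.of fun a s => ∑ i, star (B2 p (S a, i)) * v s i,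
    fun p => Matrix.of fun a t => ∑ j, star (v t j) * star (B1 p (S a, j)), ?_⟩
  funext a b s t
  rw [curv_apply, dec]
  have f1 : ∑ p, (∑ i, star (B2 p (S a, i)) * v s i) * star (∑ i, star (B2 p (S b, i)) * v t i)
      = ∑ i, ∑ j, v s i * star (v t j) * Θ₂ i j (S a) (S b) := by
    simp_rw [star_sum, star_mul', star_star, Finset.sum_mul_sum, e2, Finset.mul_sum]
    rw [Finset.sum_comm]
    refine Finset.sum_congr rfl fun i _ => ?_
    rw [Finset.sum_comm]
    refine Finset.sum_congr rfl fun j _ => Finset.sum_congr rfl fun p _ => ?_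
    ring
  have f2 : ∑ p, (∑ j, star (v t j) * star (B1 p (S a, j))) *
        star (∑ j, star (v s j) * star (B1 p (S b, j)))
      = ∑ i, ∑ j, v s i * star (v t j) * Θ₁ i j (S a) (S b) := by
    simp_rw [star_sum, star_mul', star_star, Finset.sum_mul_sum, e1, Finset.mul_sum]
    rw [Finset.sum_comm]
    have hsw : ∀ g : Fin n → Fin n → (Fin r × Fin n) → ℂ,
        ∑ x, ∑ p, ∑ y, g x y p = ∑ y, ∑ x, ∑ p, g x y p := by
      intro g
      rw [Finset.sum_comm]
      calc ∑ p, ∑ x, ∑ y, g x y p = ∑ p, ∑ y, ∑ x, g x y p :=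
            Finset.sum_congr rfl fun p _ => Finset.sum_comm
        _ = ∑ y, ∑ p, ∑ x, g x y p := Finset.sum_comm
        _ = ∑ y, ∑ x, ∑ p, g x y p := Finset.sum_congr rfl fun y _ => Finset.sum_comm
    rw [hsw]
    refine Finset.sum_congr rfl fun i _ => Finset.sum_congr rfl fun j _ =>
      Finset.sum_congr rfl fun p _ => ?_
    ring
  simp only [Matrix.of_apply]
  rw [f1, f2, ← Finset.sum_add_distrib]
  refine Finset.sum_congr rfl fun i _ => ?_
  rw [← Finset.sum_add_distrib]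
  refine Finset.sum_congr rfl fun j _ => ?_
  rw [hdec i j, Matrix.add_apply]
  ring

end H864D
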