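import Mathlib
import Pool.Agent.H864D.Chern

set_option autoImplicit false

namespace H864D

open scoped ComplexOrder

variable {k : ℕ} {K L : Type*} [Fintype K] [DecidableEq K] [Fintype L] [DecidableEq L]

theorem quad_exp (C : Matrix (Fin k) (Fin k) ℂ) (y x : Fin k → ℂ) :
    (y ⬝ᵥ C.mulVec x) * star (y ⬝ᵥ C.mulVec x)
      = ∑ a, ∑ b, ∑ s, ∑ t, y a * star (y b) * x s * star (x t) * (C a s * star (C b t)) := by
  simp only [dotProduct, Matrix.mulVec, star_sum, star_mul', Finset.mul_sum, Finset.sum_mul]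
  have h : ∀ g : Fin k → Fin k → Fin k → Fin k → ℂ,
      ∑ b, ∑ t, ∑ a, ∑ s, g a b s t = ∑ a, ∑ b, ∑ s, ∑ t, g a b s t := by
    intro g
    calc ∑ b, ∑ t, ∑ a, ∑ s, g a b s t = ∑ b, ∑ a, ∑ t, ∑ s, g a b s t :=
          Finset.sum_congr rfl fun b _ => Finset.sum_comm
      _ = ∑ a, ∑ b, ∑ t, ∑ s, g a b s t := Finset.sum_comm
      _ = ∑ a, ∑ b, ∑ s, ∑ t, g a b s t :=
          Finset.sum_congr rfl fun a _ => Finset.sum_congr rfl fun b _ => Finset.sum_comm
  refine Eq.trans ?_ (h (fun a b s t => y a * star (y b) * x s * star (x t) *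
    (C a s * star (C b t))))
  refine Finset.sum_congr rfl fun b _ => Finset.sum_congr rfl fun t _ =>
    Finset.sum_congr rfl fun a _ => Finset.sum_congr rfl fun s _ => ?_
  ring

theorem dec_form (A : K → Matrix (Fin k) (Fin k) ℂ) (B : L → Matrix (Fin k) (Fin k) ℂ)
    (x y : Fin k → ℂ) :
    ∑ a, ∑ b, ∑ s, ∑ t, y a * star (y b) * x s * star (x t) * dec A B a b s t
      = ∑ p, (y ⬝ᵥ (A p).mulVec x) * star (y ⬝ᵥ (A p).mulVec x)
        + ∑ p, (y ⬝ᵥ (B p).mulVec (star x)) * star (y ⬝ᵥ (B p).mulVec (star x)) := by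
  simp_rw [quad_exp, dec, mul_add, Finset.sum_add_distrib, Finset.mul_sum]
  have h : ∀ {X : Type _} [Fintype X] (g : X → Fin k → Fin k → Fin k → Fin k → ℂ),
      ∑ p, ∑ a, ∑ b, ∑ s, ∑ t, g p a b s t = ∑ a, ∑ b, ∑ s, ∑ t, ∑ p, g p a b s t := by
    intro X _ g
    rw [Finset.sum_comm]
    refine Finset.sum_congr rfl fun a _ => ?_
    rw [Finset.sum_comm]
    refine Finset.sum_congr rfl fun b _ => ?_
    rw [Finset.sum_comm]
    refine Finset.sum_congr rfl fun s _ => ?_
    rw [Finset.sum_comm]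
  have h' : ∀ {X : Type _} [Fintype X] (g : X → Fin k → Fin k → Fin k → Fin k → ℂ),
      ∑ p, ∑ a, ∑ b, ∑ s, ∑ t, g p a b s t = ∑ a, ∑ b, ∑ s, ∑ t, ∑ p, g p a b s t := by
    intro X _ g
    rw [Finset.sum_comm]
    refine Finset.sum_congr rfl fun a _ => ?_
    rw [Finset.sum_comm]
    refine Finset.sum_congr rfl fun b _ => ?_
    rw [Finset.sum_comm]
    refine Finset.sum_congr rfl fun s _ => ?_
    rw [Finset.sum_comm]
  congr 1
  · rw [h]
  · rw [h']
    refine Finset.sum_congr rfl fun a _ => Finset.sum_congr rfl fun b _ => ?_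
    rw [Finset.sum_comm]
    refine Finset.sum_congr rfl fun s _ => Finset.sum_congr rfl fun t _ =>
      Finset.sum_congr rfl fun p _ => ?_
    simp only [Pi.star_apply, star_star]
    ring

theorem nd_of_form (A : K → Matrix (Fin k) (Fin k) ℂ) (B : L → Matrix (Fin k) (Fin k) ℂ)
    (h : ∀ x y : Fin k → ℂ, x ≠ 0 → y ≠ 0 →
      ∑ a, ∑ b, ∑ s, ∑ t, y a * star (y b) * x s * star (x t) * dec A B a b s t ≠ 0) :
    ND A B := by
  intro x y hx hy ⟨h1, h2⟩
  apply h x y hx hy
  rw [dec_form]
  simp [h1, h2]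

theorem curv_form {n r : ℕ} (Θ : Fin n → Fin n → Matrix (Fin r) (Fin r) ℂ)
    (v : Fin k → Fin n → ℂ) (S : Fin k ↪o Fin r) (x y : Fin k → ℂ) :
    ∑ a, ∑ b, ∑ s, ∑ t, y a * star (y b) * x s * star (x t) *
        curv Θ (v s) (v t) (S a) (S b)
      = star (fun c => ∑ a, if S a = c then star (y a) else 0) ⬝ᵥ
        (curv Θ (∑ s, x s • v s) (∑ s, x s • v s)).mulVec
          (fun c => ∑ a, if S a = c then star (y a) else 0) := by
  have h1 : ∀ c d, curv Θ (∑ s, x s • v s) (∑ s, x s • v s) c d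
      = ∑ s, ∑ t, x s * star (x t) * curv Θ (v s) (v t) c d := by
    intro c d
    simp only [curv_apply, Finset.sum_apply, Pi.smul_apply, smul_eq_mul, star_sum, star_mul']
    have e : ∀ i j, (∑ s, x s * v s i) * (∑ t, star (x t) * star (v t j)) * Θ i j c d
        = ∑ s, ∑ t, x s * star (x t) * (v s i * star (v t j) * Θ i j c d) := by
      intro i j
      rw [Finset.sum_mul_sum, Finset.sum_mul]
      refine Finset.sum_congr rfl fun s _ => ?_
      rw [Finset.sum_mul]
      refine Finset.sum_congr rfl fun t _ => ?_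
      ring
    simp_rw [e, Finset.mul_sum]
    have h : ∀ g : Fin n → Fin n → Fin k → Fin k → ℂ,
        ∑ i, ∑ j, ∑ s, ∑ t, g i j s t = ∑ s, ∑ t, ∑ i, ∑ j, g i j s t := by
      intro g
      calc ∑ i, ∑ j, ∑ s, ∑ t, g i j s t = ∑ i, ∑ s, ∑ j, ∑ t, g i j s t :=
            Finset.sum_congr rfl fun i _ => Finset.sum_comm
        _ = ∑ s, ∑ i, ∑ j, ∑ t, g i j s t := Finset.sum_comm
        _ = ∑ s, ∑ i, ∑ t, ∑ j, g i j s t :=
            Finset.sum_congr rfl fun s _ => Finset.sum_congr rfl fun i _ => Finset.sum_comm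
        _ = ∑ s, ∑ t, ∑ i, ∑ j, g i j s t :=
            Finset.sum_congr rfl fun s _ => Finset.sum_comm
    rw [h]
  have h2 : ∀ M : Matrix (Fin r) (Fin r) ℂ,
      star (fun c => ∑ a, if S a = c then star (y a) else 0) ⬝ᵥ
        M.mulVec (fun c => ∑ a, if S a = c then star (y a) else 0)
      = ∑ a, ∑ b, y a * star (y b) * M (S a) (S b) := by
    intro M
    have e1 : ∀ f : Fin r → ℂ, star (fun c => ∑ a, if S a = c then star (y a) else 0) ⬝ᵥ f
        = ∑ a, y a * f (S a) := by
      intro f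
      simp only [dotProduct, Pi.star_apply, star_sum, Finset.sum_mul]
      rw [Finset.sum_comm]
      refine Finset.sum_congr rfl fun a _ => ?_
      rw [Finset.sum_eq_single (S a)]
      · simp
      · intro b _ hb
        rw [if_neg (fun h => hb h.symm)]
        simp
      · intro h
        exact absurd (Finset.mem_univ _) h
    have e2 : ∀ f : Fin r → ℂ, f ⬝ᵥ (fun c => ∑ a, if S a = c then star (y a) else 0)
        = ∑ a, f (S a) * star (y a) := by
      intro f
      simp only [dotProduct, Finset.mul_sum]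
      rw [Finset.sum_comm]
      refine Finset.sum_congr rfl fun a _ => ?_
      rw [Finset.sum_eq_single (S a)]
      · simp
      · intro b _ hb
        rw [if_neg (fun h => hb h.symm)]
        simp
      · intro h
        exact absurd (Finset.mem_univ _) h
    rw [e1]
    refine Finset.sum_congr rfl fun a _ => ?_
    simp only [Matrix.mulVec]
    rw [e2, Finset.mul_sum]
    exact Finset.sum_congr rfl fun b _ => by ring
  rw [h2]
  refine Finset.sum_congr rfl fun a _ => Finset.sum_congr rfl fun b _ => ?_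
  rw [h1, Finset.mul_sum]
  refine Finset.sum_congr rfl fun s _ => ?_
  rw [Finset.mul_sum]
  exact Finset.sum_congr rfl fun t _ => by ring

/-- **Chern forms of decomposably (semi)positive curvature tensors.** -/
theorem chern_decomposable {n r : ℕ} (k : ℕ)
    (Θ Θ₁ Θ₂ : Fin n → Fin n → Matrix (Fin r) (Fin r) ℂ)
    (hdec : ∀ i j, Θ i j = Θ₁ i j + Θ₂ i j) (h1 : NakanoSemipositive Θ₁)
    (h2 : DualNakanoSemipositive Θ₂) (v : Fin k → Fin n → ℂ) :
    0 ≤ chernForm k Θ v ∧
      (GriffithsPositive Θ → LinearIndependent ℂ v → k ≤ r → 0 < chernForm k Θ v) := by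
  classical
  rw [chernForm_eq]
  constructor
  · refine Finset.sum_nonneg fun S _ => ?_
    obtain ⟨A, B, hAB⟩ := exists_kraus Θ Θ₁ Θ₂ hdec h1 h2 v S
    rw [hAB]
    obtain ⟨t, ht, h⟩ := hdet_nonneg A B
    rw [h]
    exact_mod_cast ht
  · intro hG hv hkr
    refine Finset.sum_pos (fun S _ => ?_) ⟨Fin.castLEOrderEmb hkr, Finset.mem_univ _⟩
    obtain ⟨A, B, hAB⟩ := exists_kraus Θ Θ₁ Θ₂ hdec h1 h2 v S
    rw [hAB]
    obtain ⟨t, ht, h⟩ := hdet_pos A B (nd_of_form A B (by
      intro x y hx hy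
      rw [← hAB]
      simp only
      rw [curv_form]
      have hξ : (∑ s, x s • v s) ≠ 0 := by
        intro h0
        apply hx
        funext s
        exact Fintype.linearIndependent_iff.mp hv x h0 s
      have hw : (fun c => ∑ a, if S a = c then star (y a) else 0) ≠ 0 := by
        intro h0
        apply hy
        funext a
        have := congrFun h0 (S a)
        simp only [Pi.zero_apply] at this
        rw [Finset.sum_eq_single a] at this
        · simpa using this
        · intro b _ hb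
          rw [if_neg (fun h => hb (S.injective h))]
        · intro h
          exact absurd (Finset.mem_univ _) h
      exact ((hG _ hξ).dotProduct_mulVec_pos hw).ne'))
    rw [h]
    exact_mod_cast ht

end H864D
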