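import Mathlib
import Pool.Agent.H864D.Chern2

set_option autoImplicit false

namespace H864D

open MeasureTheory
open scoped ComplexOrder

/-- Product of the `(1,1)`-forms `Θ_{(e i).1, (e i).2}`, evaluated on `v 0, v̄ 0, …`. -/
noncomputable def wedge {n r k : ℕ} (Θ : Fin n → Fin n → Matrix (Fin r) (Fin r) ℂ)
    (v : Fin k → Fin n → ℂ) (e : Fin k → Fin r × Fin r) : ℂ :=
  ∑ σ : Equiv.Perm (Fin k), ∑ τ : Equiv.Perm (Fin k),
    ((Equiv.Perm.sign σ : ℤ) : ℂ) * ((Equiv.Perm.sign τ : ℤ) : ℂ) *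
      ∏ i, curv Θ (v (σ i)) (v (τ i)) (e i).1 (e i).2

/-- The trace of the Young symmetrizer of a labelling `(row, col)` of `k` boxes (signs along the
rows) on the `k`-th tensor power of the matrix of forms `Θ`. -/
noncomputable def youngForm {n r k m : ℕ} (row : Fin k → Fin m) (col : Fin k → Fin r)
    (Θ : Fin n → Fin n → Matrix (Fin r) (Fin r) ℂ) (v : Fin k → Fin n → ℂ) : ℂ :=
  ∑ α : Equiv.Perm (Fin k), ∑ β : Equiv.Perm (Fin k),
    if (∀ i, row (α i) = row i) ∧ (∀ i, col (β i) = col i) then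
      ((Equiv.Perm.sign α : ℤ) : ℂ) * ∑ s : Fin k → Fin r, wedge Θ v (fun i => (s i, s (β (α i))))
    else 0

section gauss

variable {r k m : ℕ}

/-- compressed tensor. -/
noncomputable def comp (row : Fin k → Fin m) (col : Fin k → Fin r)
    (F : Fin r → Fin r → Fin k → Fin k → ℂ) (z : Fin r × Fin r → ℂ) (b b' i j : Fin k) : ℂ :=
  if row b' = row b then ∑ c, ∑ d, star (z (c, col b)) * z (d, col b') * F c d i j else 0

theorem inner_expand (col col' : Fin k → Fin r) (H : Fin k → Fin r → Fin r → ℂ)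
    (z : Fin r × Fin r → ℂ) :
    (∏ i, ∑ c, ∑ d, star (z (c, col i)) * z (d, col' i) * H i c d) * gW z
      = ∑ s : Fin k → Fin r,
        (∏ i, ∑ p : Fin r × Fin r, (if p.2 = col' i then H i (s i) p.1 else 0) * z p) *
        (∏ i, star (∑ p : Fin r × Fin r, (if p = (s i, col i) then (1 : ℂ) else 0) * z p))
          * gW z := by
  have h1 : ∀ i, (∑ c, ∑ d, star (z (c, col i)) * z (d, col' i) * H i c d)
      = ∑ c, star (z (c, col i)) * ∑ d, H i c d * z (d, col' i) := by
    intro i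
    refine Finset.sum_congr rfl fun c _ => ?_
    rw [Finset.mul_sum]
    exact Finset.sum_congr rfl fun d _ => by ring
  simp_rw [h1]
  rw [Finset.prod_univ_sum, Fintype.piFinset_univ, Finset.sum_mul]
  refine Finset.sum_congr rfl fun s _ => ?_
  rw [Finset.prod_mul_distrib]
  have h2 : ∀ i, (∑ p : Fin r × Fin r, (if p.2 = col' i then H i (s i) p.1 else 0) * z p)
      = ∑ d, H i (s i) d * z (d, col' i) := by
    intro i
    rw [Fintype.sum_prod_type]
    refine Finset.sum_congr rfl fun d _ => ?_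
    simp
  have h3 : ∀ i, (∑ p : Fin r × Fin r, (if p = (s i, col i) then (1 : ℂ) else 0) * z p)
      = z (s i, col i) := by
    intro i
    simp
  simp_rw [h2, h3]
  ring

theorem inner_int (col col' : Fin k → Fin r) (H : Fin k → Fin r → Fin r → ℂ) :
    Integrable (fun z : Fin r × Fin r → ℂ =>
      (∏ i, ∑ c, ∑ d, star (z (c, col i)) * z (d, col' i) * H i c d) * gW z) := by
  simp_rw [inner_expand]
  exact integrable_finset_sum _ fun s _ => wick_integrable _ _

theorem inner_eq (col col' : Fin k → Fin r) (H : Fin k → Fin r → Fin r → ℂ) :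
    ∫ z : Fin r × Fin r → ℂ,
      (∏ i, ∑ c, ∑ d, star (z (c, col i)) * z (d, col' i) * H i c d) * gW z
      = (Real.pi : ℂ) ^ (Fintype.card (Fin r × Fin r)) *
        ∑ s : Fin k → Fin r, ∑ w : Equiv.Perm (Fin k),
          if (∀ i, col (w i) = col' i) then ∏ i, H i (s i) (s (w i)) else 0 := by
  simp_rw [inner_expand]
  rw [integral_finset_sum _ fun s _ => wick_integrable _ _]
  simp_rw [wick]
  rw [← Finset.mul_sum]
  congr 1
  refine Finset.sum_congr rfl fun s _ => Finset.sum_congr rfl fun w _ => ?_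
  have h : ∀ i, (∑ p : Fin r × Fin r, (if p.2 = col' i then H i (s i) p.1 else 0) *
      star (if p = (s (w i), col (w i)) then (1 : ℂ) else 0))
      = if col (w i) = col' i then H i (s i) (s (w i)) else 0 := by
    intro i
    rw [Finset.sum_eq_single (s (w i), col (w i))]
    · simp
    · intro p _ hp
      rw [if_neg hp]
      simp
    · intro h
      exact absurd (Finset.mem_univ _) h
  simp_rw [h]
  rw [Finset.prod_ite_zero]
  simp

theorem comp_prod (row : Fin k → Fin m) (col : Fin k → Fin r)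
    (F : Fin r → Fin r → Fin k → Fin k → ℂ) (z : Fin r × Fin r → ℂ)
    (w σ τ : Equiv.Perm (Fin k)) :
    ∏ i, comp row col F z i (w i) (σ i) (τ i)
      = if (∀ i, row (w i) = row i) then
        ∏ i, ∑ c, ∑ d, star (z (c, col i)) * z (d, col (w i)) * F c d (σ i) (τ i) else 0 := by
  unfold comp
  rw [Finset.prod_ite_zero]
  simp

theorem hdet_comp (row : Fin k → Fin m) (col : Fin k → Fin r)
    (F : Fin r → Fin r → Fin k → Fin k → ℂ) (z : Fin r × Fin r → ℂ) :
    Hdet (comp row col F z) * gW z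
      = ∑ w : Equiv.Perm (Fin k), ∑ σ : Equiv.Perm (Fin k), ∑ τ : Equiv.Perm (Fin k),
        (if (∀ i, row (w i) = row i) then ((Equiv.Perm.sign w : ℤ) : ℂ) *
          (((Equiv.Perm.sign σ : ℤ) : ℂ) * ((Equiv.Perm.sign τ : ℤ) : ℂ)) else 0) *
        ((∏ i, ∑ c, ∑ d, star (z (c, col i)) * z (d, col (w i)) * F c d (σ i) (τ i))
          * gW z) := by
  unfold Hdet
  simp_rw [comp_prod, Finset.sum_mul]
  refine Finset.sum_congr rfl fun w _ => Finset.sum_congr rfl fun σ _ =>
    Finset.sum_congr rfl fun τ _ => ?_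
  split_ifs
  · ring
  · ring

theorem hdet_comp_int (row : Fin k → Fin m) (col : Fin k → Fin r)
    (F : Fin r → Fin r → Fin k → Fin k → ℂ) :
    Integrable (fun z : Fin r × Fin r → ℂ => Hdet (comp row col F z) * gW z) := by
  simp_rw [hdet_comp]
  exact integrable_finset_sum _ fun w _ => integrable_finset_sum _ fun σ _ =>
    integrable_finset_sum _ fun τ _ => (inner_int _ _ _).const_mul _

theorem hdet_comp_eq (row : Fin k → Fin m) (col : Fin k → Fin r)
    (F : Fin r → Fin r → Fin k → Fin k → ℂ) :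
    ∫ z : Fin r × Fin r → ℂ, Hdet (comp row col F z) * gW z
      = (Real.pi : ℂ) ^ (Fintype.card (Fin r × Fin r)) *
        ∑ α : Equiv.Perm (Fin k), ∑ β : Equiv.Perm (Fin k),
          if (∀ i, row (α i) = row i) ∧ (∀ i, col (β i) = col i) then
            ((Equiv.Perm.sign α : ℤ) : ℂ) * ∑ s : Fin k → Fin r,
              ∑ σ : Equiv.Perm (Fin k), ∑ τ : Equiv.Perm (Fin k),
              ((Equiv.Perm.sign σ : ℤ) : ℂ) * ((Equiv.Perm.sign τ : ℤ) : ℂ) *
                ∏ i, F (s i) (s (β (α i))) (σ i) (τ i)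
          else 0 := by
  simp_rw [hdet_comp]
  rw [integral_finset_sum _ fun w _ => integrable_finset_sum _ fun σ _ =>
    integrable_finset_sum _ fun τ _ => (inner_int _ _ _).const_mul _, Finset.mul_sum]
  refine Finset.sum_congr rfl fun w _ => ?_
  rw [integral_finset_sum _ fun σ _ =>
    integrable_finset_sum _ fun τ _ => (inner_int _ _ _).const_mul _]
  have h1 : ∀ σ : Equiv.Perm (Fin k), (∫ z : Fin r × Fin r → ℂ, ∑ τ : Equiv.Perm (Fin k),
        (if (∀ i, row (w i) = row i) then ((Equiv.Perm.sign w : ℤ) : ℂ) *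
          (((Equiv.Perm.sign σ : ℤ) : ℂ) * ((Equiv.Perm.sign τ : ℤ) : ℂ)) else 0) *
        ((∏ i, ∑ c, ∑ d, star (z (c, col i)) * z (d, col (w i)) * F c d (σ i) (τ i))
          * gW z))
      = ∑ τ : Equiv.Perm (Fin k),
        (if (∀ i, row (w i) = row i) then ((Equiv.Perm.sign w : ℤ) : ℂ) *
          (((Equiv.Perm.sign σ : ℤ) : ℂ) * ((Equiv.Perm.sign τ : ℤ) : ℂ)) else 0) *
        ((Real.pi : ℂ) ^ (Fintype.card (Fin r × Fin r)) *
        ∑ s : Fin k → Fin r, ∑ u : Equiv.Perm (Fin k),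
          if (∀ i, col (u i) = col (w i)) then ∏ i, F (s i) (s (u i)) (σ i) (τ i) else 0) := by
    intro σ
    rw [integral_finset_sum _ fun τ _ => (inner_int _ _ _).const_mul _]
    refine Finset.sum_congr rfl fun τ _ => ?_
    rw [integral_const_mul, inner_eq col (fun i => col (w i)) (fun i c d => F c d (σ i) (τ i))]
  simp_rw [h1]
  -- reparametrise u = β * w
  have h2 : ∀ (s : Fin k → Fin r) (σ τ : Equiv.Perm (Fin k)),
      (∑ u : Equiv.Perm (Fin k),
        if (∀ i, col (u i) = col (w i)) then ∏ i, F (s i) (s (u i)) (σ i) (τ i) else 0)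
      = ∑ β : Equiv.Perm (Fin k),
        if (∀ i, col (β i) = col i) then ∏ i, F (s i) (s (β (w i))) (σ i) (τ i) else 0 := by
    intro s σ τ
    symm
    refine Fintype.sum_equiv (Equiv.mulRight w) _ _ fun β => ?_
    have hiff : (∀ i, col (β i) = col i) ↔ (∀ i, col ((β * w) i) = col (w i)) := by
      constructor
      · intro h i
        exact h (w i)
      · intro h i
        have := h (w⁻¹ i)
        simpa using this
    rw [Equiv.coe_mulRight]
    by_cases hh : ∀ i, col (β i) = col i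
    · rw [if_pos hh, if_pos (hiff.mp hh)]
      rfl
    · rw [if_neg hh, if_neg (fun h => hh (hiff.mpr h))]
  simp_rw [h2]
  by_cases hw : ∀ i, row (w i) = row i
  · simp only [hw, implies_true, if_true, true_and]
    let G : Equiv.Perm (Fin k) → Equiv.Perm (Fin k) → (Fin k → Fin r) → Equiv.Perm (Fin k) → ℂ :=
      fun σ τ s β => (Real.pi : ℂ) ^ (Fintype.card (Fin r × Fin r)) *
        (((Equiv.Perm.sign w : ℤ) : ℂ) *
          (((Equiv.Perm.sign σ : ℤ) : ℂ) * ((Equiv.Perm.sign τ : ℤ) : ℂ) *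
          (if (∀ i, col (β i) = col i) then ∏ i, F (s i) (s (β (w i))) (σ i) (τ i) else 0)))
    have hswap : ∑ σ, ∑ τ, ∑ s, ∑ β, G σ τ s β = ∑ β, ∑ s, ∑ σ, ∑ τ, G σ τ s β := by
      calc ∑ σ, ∑ τ, ∑ s, ∑ β, G σ τ s β = ∑ σ, ∑ s, ∑ τ, ∑ β, G σ τ s β :=
            Finset.sum_congr rfl fun σ _ => Finset.sum_comm
        _ = ∑ s, ∑ σ, ∑ τ, ∑ β, G σ τ s β := Finset.sum_comm
        _ = ∑ s, ∑ σ, ∑ β, ∑ τ, G σ τ s β :=
            Finset.sum_congr rfl fun s _ => Finset.sum_congr rfl fun σ _ => Finset.sum_comm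
        _ = ∑ s, ∑ β, ∑ σ, ∑ τ, G σ τ s β :=
            Finset.sum_congr rfl fun s _ => Finset.sum_comm
        _ = ∑ β, ∑ s, ∑ σ, ∑ τ, G σ τ s β := Finset.sum_comm
    have hL : ∀ σ τ : Equiv.Perm (Fin k), ((Equiv.Perm.sign w : ℤ) : ℂ) *
          (((Equiv.Perm.sign σ : ℤ) : ℂ) * ((Equiv.Perm.sign τ : ℤ) : ℂ)) *
        ((Real.pi : ℂ) ^ (Fintype.card (Fin r × Fin r)) *
        ∑ s : Fin k → Fin r, ∑ β : Equiv.Perm (Fin k),
          if (∀ i, col (β i) = col i) then ∏ i, F (s i) (s (β (w i))) (σ i) (τ i) else 0)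
        = ∑ s, ∑ β, G σ τ s β := by
      intro σ τ
      rw [Finset.mul_sum, Finset.mul_sum]
      refine Finset.sum_congr rfl fun s _ => ?_
      rw [Finset.mul_sum, Finset.mul_sum]
      refine Finset.sum_congr rfl fun β _ => ?_
      simp only [G]
      ring
    have hR : ∀ β : Equiv.Perm (Fin k), (Real.pi : ℂ) ^ (Fintype.card (Fin r × Fin r)) *
          (if (∀ i, col (β i) = col i) then
            ((Equiv.Perm.sign w : ℤ) : ℂ) * ∑ s : Fin k → Fin r,
              ∑ σ : Equiv.Perm (Fin k), ∑ τ : Equiv.Perm (Fin k),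
              ((Equiv.Perm.sign σ : ℤ) : ℂ) * ((Equiv.Perm.sign τ : ℤ) : ℂ) *
                ∏ i, F (s i) (s (β (w i))) (σ i) (τ i)
          else 0) = ∑ s, ∑ σ, ∑ τ, G σ τ s β := by
      intro β
      by_cases hβ : ∀ i, col (β i) = col i
      · rw [if_pos hβ]
        simp only [G, if_pos hβ, Finset.mul_sum]
      · rw [if_neg hβ]
        simp only [G, if_neg hβ, mul_zero, Finset.sum_const_zero]
    rw [Finset.sum_congr rfl fun σ _ => Finset.sum_congr rfl fun τ _ => hL σ τ, hswap,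
      Finset.mul_sum]
    exact Finset.sum_congr rfl fun β _ => (hR β).symm
  · simp [hw]

end gauss

end H864D
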