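import Mathlib
import Pool.Agent.H864D.Schur

set_option autoImplicit false

namespace H864D

open MeasureTheory
open scoped ComplexOrder

/-- Kraus operators of a decomposable tensor, in the full fibre. -/
theorem exists_kraus_full {n r k : ℕ} (Θ Θ₁ Θ₂ : Fin n → Fin n → Matrix (Fin r) (Fin r) ℂ)
    (hdec : ∀ i j, Θ i j = Θ₁ i j + Θ₂ i j) (h1 : NakanoSemipositive Θ₁)
    (h2 : DualNakanoSemipositive Θ₂) (v : Fin k → Fin n → ℂ) :
    ∃ A B : (Fin r × Fin n) → Fin r → Fin k → ℂ, ∀ c d i j,
      curv Θ (v i) (v j) c d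
        = ∑ p, A p c i * star (A p d j) + ∑ p, B p c j * star (B p d i) := by
  obtain ⟨B1, hB1⟩ := exists_factor h1
  obtain ⟨B2, hB2⟩ := exists_factor h2
  have e1 : ∀ i j a b, Θ₁ i j a b = ∑ p, star (B1 p (a, j)) * B1 p (b, i) := by
    intro i j a b
    have := congrFun (congrFun hB1 (a, j)) (b, i)
    simpa [Matrix.mul_apply] using this
  have e2 : ∀ i j a b, Θ₂ i j a b = ∑ p, star (B2 p (a, i)) * B2 p (b, j) := by
    intro i j a b
    have := congrFun (congrFun hB2 (a, i)) (b, j)
    simpa [Matrix.mul_apply] using this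
  refine ⟨fun p a s => ∑ i, star (B2 p (a, i)) * v s i,
    fun p a t => ∑ j, star (v t j) * star (B1 p (a, j)), ?_⟩
  intro a b s t
  rw [curv_apply]
  have f1 : ∑ p, (∑ i, star (B2 p (a, i)) * v s i) * star (∑ i, star (B2 p (b, i)) * v t i)
      = ∑ i, ∑ j, v s i * star (v t j) * Θ₂ i j a b := by
    simp_rw [star_sum, star_mul', star_star, Finset.sum_mul_sum, e2, Finset.mul_sum]
    rw [Finset.sum_comm]
    refine Finset.sum_congr rfl fun i _ => ?_
    rw [Finset.sum_comm]
    refine Finset.sum_congr rfl fun j _ => Finset.sum_congr rfl fun p _ => ?_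
    ring
  have f2 : ∑ p, (∑ j, star (v t j) * star (B1 p (a, j))) *
        star (∑ j, star (v s j) * star (B1 p (b, j)))
      = ∑ i, ∑ j, v s i * star (v t j) * Θ₁ i j a b := by
    simp_rw [star_sum, star_mul', star_star, Finset.sum_mul_sum, e1, Finset.mul_sum]
    rw [Finset.sum_comm]
    have hsw : ∀ g : Fin n → Fin n → (Fin r × Fin n) → ℂ,
        ∑ x, ∑ p, ∑ y, g x y p = ∑ y, ∑ x, ∑ p, g x y p := by
      intro g
      rw [Finset.sum_comm]
      calc ∑ p, ∑ x, ∑ y, g x y p = ∑ p, ∑ y, ∑ x, g x y p :=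
            Finset.sum_congr rfl fun p _ => Finset.sum_comm
        _ = ∑ y, ∑ p, ∑ x, g x y p := Finset.sum_comm
        _ = ∑ y, ∑ x, ∑ p, g x y p := Finset.sum_congr rfl fun y _ => Finset.sum_comm
    rw [hsw]
    refine Finset.sum_congr rfl fun i _ => Finset.sum_congr rfl fun j _ =>
      Finset.sum_congr rfl fun p _ => ?_
    ring
  rw [f1, f2, ← Finset.sum_add_distrib]
  refine Finset.sum_congr rfl fun i _ => ?_
  rw [← Finset.sum_add_distrib]
  refine Finset.sum_congr rfl fun j _ => ?_
  rw [hdec i j, Matrix.add_apply]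
  ring

section

variable {r k m : ℕ} {P : Type*} [Fintype P] [DecidableEq P]

theorem label_sum (x y : Fin m) (a b : ℂ) :
    ∑ ρ : Fin m, (if x = ρ then a else 0) * star (if y = ρ then b else 0)
      = if y = x then a * star b else 0 := by
  rw [Finset.sum_eq_single x]
  · by_cases h : y = x
    · simp [h]
    · simp [h]
  · intro ρ _ hρ
    rw [if_neg (fun h => hρ h.symm), zero_mul]
  · intro h
    exact absurd (Finset.mem_univ _) h

/-- compressed Kraus operators. -/
noncomputable def cK (row : Fin k → Fin m) (col : Fin k → Fin r) (A : P → Fin r → Fin k → ℂ)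
    (z : Fin r × Fin r → ℂ) (q : P × Fin m) : Matrix (Fin k) (Fin k) ℂ :=
  Matrix.of fun b i => if row b = q.2 then ∑ c, star (z (c, col b)) * A q.1 c i else 0

omit [DecidableEq P] in
theorem cK_sum (row : Fin k → Fin m) (col : Fin k → Fin r) (A : P → Fin r → Fin k → ℂ)
    (z : Fin r × Fin r → ℂ) (b b' i j : Fin k) :
    ∑ q, cK row col A z q b i * star (cK row col A z q b' j)
      = if row b' = row b then ∑ c, ∑ d, star (z (c, col b)) * z (d, col b') *
          ∑ p, A p c i * star (A p d j) else 0 := by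
  rw [Fintype.sum_prod_type]
  simp only [cK, Matrix.of_apply]
  simp_rw [label_sum]
  split_ifs with h
  · simp_rw [star_sum, star_mul', star_star, Finset.sum_mul_sum, Finset.mul_sum]
    rw [Finset.sum_comm]
    refine Finset.sum_congr rfl fun c _ => ?_
    rw [Finset.sum_comm]
    refine Finset.sum_congr rfl fun d _ => Finset.sum_congr rfl fun p _ => ?_
    ring
  · simp

omit [DecidableEq P] in
theorem comp_eq_dec (row : Fin k → Fin m) (col : Fin k → Fin r)
    (F : Fin r → Fin r → Fin k → Fin k → ℂ) (A B : P → Fin r → Fin k → ℂ)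
    (hF : ∀ c d i j, F c d i j
        = ∑ p, A p c i * star (A p d j) + ∑ p, B p c j * star (B p d i))
    (z : Fin r × Fin r → ℂ) :
    comp row col F z = dec (cK row col A z) (cK row col B z) := by
  funext b b' i j
  rw [dec, cK_sum, cK_sum, comp]
  split_ifs with h
  · rw [← Finset.sum_add_distrib]
    refine Finset.sum_congr rfl fun c _ => ?_
    rw [← Finset.sum_add_distrib]
    refine Finset.sum_congr rfl fun d _ => ?_
    rw [hF]
    ring
  · simp

/-- real weight. -/
noncomputable def gR2 (z : Fin r × Fin r → ℂ) : ℝ := ∏ k, Real.exp (-‖z k‖ ^ 2)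

theorem gR2_pos (z : Fin r × Fin r → ℂ) : 0 < gR2 z := Finset.prod_pos fun _ _ => Real.exp_pos _

theorem gW2_eq (z : Fin r × Fin r → ℂ) : gW z = (gR2 z : ℂ) := by
  unfold gW gR2 gw
  push_cast
  rfl

theorem gR2_cont : Continuous (gR2 : (Fin r × Fin r → ℂ) → ℝ) := by
  unfold gR2
  fun_prop

theorem comp_cont (row : Fin k → Fin m) (col : Fin k → Fin r)
    (F : Fin r → Fin r → Fin k → Fin k → ℂ) (b b' i j : Fin k) :
    Continuous fun z : Fin r × Fin r → ℂ => comp row col F z b b' i j := by
  unfold comp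
  split_ifs
  · fun_prop
  · exact continuous_const

theorem hdet_comp_cont (row : Fin k → Fin m) (col : Fin k → Fin r)
    (F : Fin r → Fin r → Fin k → Fin k → ℂ) :
    Continuous fun z : Fin r × Fin r → ℂ => Hdet (comp row col F z) := by
  unfold Hdet
  refine continuous_finset_sum _ fun w _ => continuous_finset_sum _ fun σ _ =>
    continuous_finset_sum _ fun τ _ => ?_
  refine Continuous.mul continuous_const (Continuous.mul continuous_const ?_)
  exact continuous_finset_prod _ fun i _ => comp_cont row col F _ _ _ _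

/-- The main positivity statement, in terms of Kraus operators. -/
theorem young_core (row : Fin k → Fin m) (col : Fin k → Fin r)
    (F : Fin r → Fin r → Fin k → Fin k → ℂ) (A B : P → Fin r → Fin k → ℂ)
    (hF : ∀ c d i j, F c d i j
        = ∑ p, A p c i * star (A p d j) + ∑ p, B p c j * star (B p d i)) :
    ∃ t : ℝ, (∫ z : Fin r × Fin r → ℂ, Hdet (comp row col F z) * gW z) = t ∧ 0 ≤ t ∧
      ((∃ z0, ND (cK row col A z0) (cK row col B z0)) → 0 < t) := by
  have hre : ∀ z, 0 ≤ (Hdet (comp row col F z)).re ∧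
      Hdet (comp row col F z) = ((Hdet (comp row col F z)).re : ℂ) := by
    intro z
    obtain ⟨t, ht, h⟩ := hdet_nonneg (cK row col A z) (cK row col B z)
    rw [comp_eq_dec row col F A B hF z, h, Complex.ofReal_re]
    exact ⟨ht, rfl⟩
  have heq : ∀ z, Hdet (comp row col F z) * gW z
      = (((Hdet (comp row col F z)).re * gR2 z : ℝ) : ℂ) := by
    intro z
    rw [gW2_eq, (hre z).2]
    push_cast
    rw [Complex.ofReal_re]
  have hint : Integrable (fun z : Fin r × Fin r → ℂ => (Hdet (comp row col F z)).re * gR2 z) := by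
    refine (hdet_comp_int row col F).re.congr (Filter.Eventually.of_forall fun z => ?_)
    simp only [heq]
    simp
  have hnn : ∀ z, 0 ≤ (Hdet (comp row col F z)).re * gR2 z := fun z =>
    mul_nonneg (hre z).1 (gR2_pos z).le
  refine ⟨∫ z, (Hdet (comp row col F z)).re * gR2 z, ?_, integral_nonneg hnn, ?_⟩
  · simp_rw [heq]
    exact integral_complex_ofReal
  · rintro ⟨z0, hz0⟩
    rw [integral_pos_iff_support_of_nonneg hnn hint]
    have hc : Continuous fun z : Fin r × Fin r → ℂ => (Hdet (comp row col F z)).re * gR2 z :=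
      (Complex.continuous_re.comp (hdet_comp_cont row col F)).mul gR2_cont
    refine hc.isOpen_support.measure_pos volume ⟨z0, ?_⟩
    rw [Function.mem_support]
    refine mul_ne_zero ?_ (gR2_pos z0).ne'
    obtain ⟨t, ht, h⟩ := hdet_pos (cK row col A z0) (cK row col B z0) hz0
    rw [comp_eq_dec row col F A B hF z0, h, Complex.ofReal_re]
    exact ht.ne'

end

theorem youngForm_eq {n r k m : ℕ} (row : Fin k → Fin m) (col : Fin k → Fin r)
    (Θ : Fin n → Fin n → Matrix (Fin r) (Fin r) ℂ) (v : Fin k → Fin n → ℂ) :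
    ∫ z : Fin r × Fin r → ℂ,
      Hdet (comp row col (fun c d i j => curv Θ (v i) (v j) c d) z) * gW z
      = (Real.pi : ℂ) ^ (Fintype.card (Fin r × Fin r)) * youngForm row col Θ v := by
  rw [hdet_comp_eq]
  rfl

end H864D
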