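import Mathlib
import Pool.Agent.H864D.Schur2

set_option autoImplicit false

namespace H864D

open MeasureTheory
open scoped ComplexOrder

/-- the identity matrix as a point of the Gaussian space. -/
noncomputable def zI {r : ℕ} : Fin r × Fin r → ℂ := fun p => if p.1 = p.2 then 1 else 0

theorem comp_zI {r k m : ℕ} (row : Fin k → Fin m) (col : Fin k → Fin r)
    (F : Fin r → Fin r → Fin k → Fin k → ℂ) (b b' i j : Fin k) :
    comp row col F zI b b' i j = if row b' = row b then F (col b) (col b') i j else 0 := by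
  unfold comp
  split_ifs with h
  · simp [zI, apply_ite (starRingEnd ℂ)]
  · rfl

/-- the vector attached to a row. -/
noncomputable def wv {r k m : ℕ} (row : Fin k → Fin m) (col : Fin k → Fin r) (y : Fin k → ℂ)
    (ρ : Fin m) (c : Fin r) : ℂ :=
  ∑ a, if row a = ρ then (if col a = c then star (y a) else 0) else 0

theorem wv_left {r k m : ℕ} (row : Fin k → Fin m) (col : Fin k → Fin r) (y : Fin k → ℂ)
    (ρ : Fin m) (f : Fin r → ℂ) :
    star (wv row col y ρ) ⬝ᵥ f = ∑ a, if row a = ρ then y a * f (col a) else 0 := by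
  simp only [dotProduct, Pi.star_apply, wv, star_sum, Finset.sum_mul]
  rw [Finset.sum_comm]
  refine Finset.sum_congr rfl fun a _ => ?_
  rw [Finset.sum_eq_single (col a)]
  · rw [if_pos (rfl : col a = col a)]
    split_ifs <;> simp
  · intro c _ hc
    have hc' : ¬ (col a = c) := fun h => hc h.symm
    simp only [hc', if_false, ite_self, star_zero, zero_mul, mul_zero]
  · intro h
    exact absurd (Finset.mem_univ _) h

theorem wv_right {r k m : ℕ} (row : Fin k → Fin m) (col : Fin k → Fin r) (y : Fin k → ℂ)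
    (ρ : Fin m) (f : Fin r → ℂ) :
    f ⬝ᵥ (wv row col y ρ) = ∑ a, if row a = ρ then f (col a) * star (y a) else 0 := by
  simp only [dotProduct, wv, Finset.mul_sum]
  rw [Finset.sum_comm]
  refine Finset.sum_congr rfl fun a _ => ?_
  rw [Finset.sum_eq_single (col a)]
  · rw [if_pos (rfl : col a = col a)]
    split_ifs <;> simp
  · intro c _ hc
    have hc' : ¬ (col a = c) := fun h => hc h.symm
    simp only [hc', if_false, ite_self, star_zero, zero_mul, mul_zero]
  · intro h
    exact absurd (Finset.mem_univ _) h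

theorem wv_form {r k m : ℕ} (row : Fin k → Fin m) (col : Fin k → Fin r) (y : Fin k → ℂ)
    (M : Matrix (Fin r) (Fin r) ℂ) :
    ∑ ρ, star (wv row col y ρ) ⬝ᵥ M.mulVec (wv row col y ρ)
      = ∑ a, ∑ b, if row b = row a then y a * star (y b) * M (col a) (col b) else 0 := by
  have h : ∀ ρ, star (wv row col y ρ) ⬝ᵥ M.mulVec (wv row col y ρ)
      = ∑ a, if row a = ρ then
          y a * (∑ b, if row b = ρ then M (col a) (col b) * star (y b) else 0) else 0 := by
    intro ρ
    rw [wv_left]
    refine Finset.sum_congr rfl fun a _ => ?_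
    simp only [Matrix.mulVec]
    rw [wv_right]
  simp_rw [h]
  rw [Finset.sum_comm]
  refine Finset.sum_congr rfl fun a _ => ?_
  rw [Finset.sum_ite_eq]
  rw [if_pos (Finset.mem_univ _), Finset.mul_sum]
  refine Finset.sum_congr rfl fun b _ => ?_
  split_ifs
  · ring
  · simp

theorem curv_lin {n r k : ℕ} (Θ : Fin n → Fin n → Matrix (Fin r) (Fin r) ℂ)
    (v : Fin k → Fin n → ℂ) (x : Fin k → ℂ) (c d : Fin r) :
    curv Θ (∑ s, x s • v s) (∑ s, x s • v s) c d
      = ∑ s, ∑ t, x s * star (x t) * curv Θ (v s) (v t) c d := by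
  simp only [curv_apply, Finset.sum_apply, Pi.smul_apply, smul_eq_mul, star_sum, star_mul']
  have e : ∀ i j, (∑ s, x s * v s i) * (∑ t, star (x t) * star (v t j)) * Θ i j c d
      = ∑ s, ∑ t, x s * star (x t) * (v s i * star (v t j) * Θ i j c d) := by
    intro i j
    rw [Finset.sum_mul_sum, Finset.sum_mul]
    refine Finset.sum_congr rfl fun s _ => ?_
    rw [Finset.sum_mul]
    refine Finset.sum_congr rfl fun t _ => ?_
    ring
  simp_rw [e, Finset.mul_sum]
  have h : ∀ g : Fin n → Fin n → Fin k → Fin k → ℂ,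
      ∑ i, ∑ j, ∑ s, ∑ t, g i j s t = ∑ s, ∑ t, ∑ i, ∑ j, g i j s t := by
    intro g
    calc ∑ i, ∑ j, ∑ s, ∑ t, g i j s t = ∑ i, ∑ s, ∑ j, ∑ t, g i j s t :=
          Finset.sum_congr rfl fun i _ => Finset.sum_comm
      _ = ∑ s, ∑ i, ∑ j, ∑ t, g i j s t := Finset.sum_comm
      _ = ∑ s, ∑ i, ∑ t, ∑ j, g i j s t :=
          Finset.sum_congr rfl fun s _ => Finset.sum_congr rfl fun i _ => Finset.sum_comm
      _ = ∑ s, ∑ t, ∑ i, ∑ j, g i j s t :=
          Finset.sum_congr rfl fun s _ => Finset.sum_comm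
  rw [h]

theorem comp_form {n r k m : ℕ} (row : Fin k → Fin m) (col : Fin k → Fin r)
    (Θ : Fin n → Fin n → Matrix (Fin r) (Fin r) ℂ) (v : Fin k → Fin n → ℂ) (x y : Fin k → ℂ) :
    ∑ a, ∑ b, ∑ s, ∑ t, y a * star (y b) * x s * star (x t) *
        comp row col (fun c d i j => curv Θ (v i) (v j) c d) zI a b s t
      = ∑ ρ, star (wv row col y ρ) ⬝ᵥ
          (curv Θ (∑ s, x s • v s) (∑ s, x s • v s)).mulVec (wv row col y ρ) := by
  rw [wv_form]
  refine Finset.sum_congr rfl fun a _ => Finset.sum_congr rfl fun b _ => ?_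
  simp_rw [comp_zI]
  split_ifs with h
  · rw [curv_lin, Finset.mul_sum]
    refine Finset.sum_congr rfl fun s _ => ?_
    rw [Finset.mul_sum]
    exact Finset.sum_congr rfl fun t _ => by ring
  · simp

/-- **Schur positivity for decomposable tensors.** -/
theorem young_decomposable {n r k m : ℕ} (row : Fin k → Fin m) (col : Fin k → Fin r)
    (hinj : ∀ i j, row i = row j → col i = col j → i = j)
    (Θ Θ₁ Θ₂ : Fin n → Fin n → Matrix (Fin r) (Fin r) ℂ)
    (hdec : ∀ i j, Θ i j = Θ₁ i j + Θ₂ i j) (h1 : NakanoSemipositive Θ₁)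
    (h2 : DualNakanoSemipositive Θ₂) (v : Fin k → Fin n → ℂ) :
    0 ≤ youngForm row col Θ v ∧
      (GriffithsPositive Θ → LinearIndependent ℂ v → 0 < youngForm row col Θ v) := by
  classical
  obtain ⟨A, B, hF⟩ := exists_kraus_full Θ Θ₁ Θ₂ hdec h1 h2 v
  obtain ⟨t, ht, ht0, htp⟩ := young_core row col (fun c d i j => curv Θ (v i) (v j) c d) A B hF
  rw [youngForm_eq] at ht
  have hpi : (0 : ℝ) < Real.pi ^ (Fintype.card (Fin r × Fin r)) := by positivity
  have hY : youngForm row col Θ v
      = (((Real.pi ^ (Fintype.card (Fin r × Fin r)))⁻¹ * t : ℝ) : ℂ) := by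
    push_cast
    rw [← ht, ← mul_assoc, inv_mul_cancel₀, one_mul]
    exact_mod_cast hpi.ne'
  rw [hY]
  constructor
  · exact_mod_cast mul_nonneg (inv_nonneg.mpr hpi.le) ht0
  · intro hG hv
    have htpos : 0 < t := by
      apply htp
      refine ⟨zI, nd_of_form _ _ ?_⟩
      intro x y hx hy
      rw [← comp_eq_dec row col (fun c d i j => curv Θ (v i) (v j) c d) A B hF zI, comp_form]
      have hξ : (∑ s, x s • v s) ≠ 0 := by
        intro h0
        apply hx
        funext s
        exact Fintype.linearIndependent_iff.mp hv x h0 s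
      have hpd := hG _ hξ
      obtain ⟨a, ha⟩ : ∃ a, y a ≠ 0 := by
        by_contra hcon
        push Not at hcon
        exact hy (funext hcon)
      have hw : wv row col y (row a) ≠ 0 := by
        intro h0
        apply ha
        have := congrFun h0 (col a)
        simp only [wv, Pi.zero_apply] at this
        rw [Finset.sum_eq_single a] at this
        · simpa using this
        · intro b _ hb
          by_cases h3 : row b = row a
          · rw [if_pos h3, if_neg (fun h4 => hb (hinj b a h3 h4))]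
          · rw [if_neg h3]
        · intro h
          exact absurd (Finset.mem_univ _) h
      refine ne_of_gt ?_
      refine Finset.sum_pos' (fun ρ _ => hpd.posSemidef.dotProduct_mulVec_nonneg _)
        ⟨row a, Finset.mem_univ _, hpd.dotProduct_mulVec_pos hw⟩
    exact_mod_cast mul_pos (inv_pos.mpr hpi) htpos

end H864D
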