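import Mathlib
import Pool.Agent.H864D.Schur3

set_option autoImplicit false

namespace H864D

open scoped ComplexOrder

variable {s b : ℕ}

/-- determinant with prescribed rows. -/
noncomputable def DN (Y : Fin s → (Fin s ⊕ Fin b) → ℂ) (N : Fin b → (Fin s ⊕ Fin b) → ℂ) : ℂ :=
  ∑ σ : Equiv.Perm (Fin s ⊕ Fin b), ((Equiv.Perm.sign σ : ℤ) : ℂ) *
    ((∏ a, Y a (σ (Sum.inl a))) * ∏ j, N j (σ (Sum.inr j)))

theorem DN_det (Y : Fin s → (Fin s ⊕ Fin b) → ℂ) (N : Fin b → (Fin s ⊕ Fin b) → ℂ) :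
    DN Y N = (Matrix.of (Sum.elim Y N)).det := by
  rw [← Matrix.det_transpose, Matrix.det_apply', DN]
  refine Finset.sum_congr rfl fun σ _ => ?_
  rw [Fintype.prod_sum_type]
  rfl

/-- The rows `N` define a decomposable functional. -/
theorem DN_decomp (N : Fin b → (Fin s ⊕ Fin b) → ℂ) :
    ∃ (c : ℂ) (X : Fin s → (Fin s ⊕ Fin b) → ℂ), ∀ Y,
      DN Y N = c * ∑ σ : Equiv.Perm (Fin s), ((Equiv.Perm.sign σ : ℤ) : ℂ) *
        ∏ a, ∑ p, Y a p * X (σ a) p := by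
  classical
  by_cases h : ∃ Y0, DN Y0 N ≠ 0
  · obtain ⟨Y0, hY0⟩ := h
    rw [DN_det] at hY0
    set B : Matrix (Fin s ⊕ Fin b) (Fin s ⊕ Fin b) ℂ := Matrix.of (Sum.elim Y0 N) with hB
    have hu : IsUnit B.det := isUnit_iff_ne_zero.mpr hY0
    refine ⟨B.det, fun a' p => B⁻¹ p (Sum.inl a'), fun Y => ?_⟩
    rw [DN_det]
    have h1 : (Matrix.of (Sum.elim Y N)) * B⁻¹
        = Matrix.fromBlocks (Matrix.of fun a a' => ∑ p, Y a p * B⁻¹ p (Sum.inl a'))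
          (Matrix.of fun a j => ∑ p, Y a p * B⁻¹ p (Sum.inr j)) 0 1 := by
      ext p q
      rcases p with a | j
      · rcases q with a' | j'
        · simp [Matrix.mul_apply, Matrix.of_apply]
        · simp [Matrix.mul_apply, Matrix.of_apply]
      · have h2 : (Matrix.of (Sum.elim Y N) * B⁻¹) (Sum.inr j) q
            = (B * B⁻¹) (Sum.inr j) q := by
          simp [Matrix.mul_apply, Matrix.of_apply, hB]
        rw [h2, Matrix.mul_nonsing_inv _ hu]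
        rcases q with a' | j'
        · simp
        · simp [Matrix.one_apply]
    have h3 : (Matrix.of (Sum.elim Y N)).det
        = ((Matrix.of (Sum.elim Y N)) * B⁻¹).det * B.det := by
      rw [Matrix.det_mul, mul_assoc, Matrix.det_nonsing_inv, Ring.inverse_mul_cancel _ hu, mul_one]
    rw [h3, h1, Matrix.det_fromBlocks_zero₂₁, Matrix.det_one, mul_one, mul_comm]
    congr 1
    rw [← Matrix.det_transpose, Matrix.det_apply']
    rfl
  · push Not at h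
    exact ⟨0, fun _ _ => 0, fun Y => by rw [h Y]; simp⟩

/-- contribution of one family of rank one forms. -/
noncomputable def HSq (Ψ : Fin s → Fin s → Matrix (Fin s ⊕ Fin b) (Fin s ⊕ Fin b) ℂ)
    (N : Fin b → (Fin s ⊕ Fin b) → ℂ) : ℂ :=
  ∑ w : Equiv.Perm (Fin s), ((Equiv.Perm.sign w : ℤ) : ℂ) *
    ∑ σ : Equiv.Perm (Fin s ⊕ Fin b), ∑ τ : Equiv.Perm (Fin s ⊕ Fin b),
      ((Equiv.Perm.sign σ : ℤ) : ℂ) * ((Equiv.Perm.sign τ : ℤ) : ℂ) *
      ((∏ a, Ψ a (w a) (σ (Sum.inl a)) (τ (Sum.inl a))) *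
        ((∏ j, N j (σ (Sum.inr j))) * star (∏ j, N j (τ (Sum.inr j)))))

theorem HSq_expand (Ψ : Fin s → Fin s → Matrix (Fin s ⊕ Fin b) (Fin s ⊕ Fin b) ℂ)
    (N : Fin b → (Fin s ⊕ Fin b) → ℂ) :
    HSq Ψ N = ∑ w : Equiv.Perm (Fin s), ((Equiv.Perm.sign w : ℤ) : ℂ) *
      ∑ H : Fin s → (Fin s ⊕ Fin b) × (Fin s ⊕ Fin b),
        (∏ a, Ψ a (w a) (H a).1 (H a).2) *
          (DN (fun a p => if p = (H a).1 then 1 else 0) N *
            star (DN (fun a p => if p = (H a).2 then 1 else 0) N)) := by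
  unfold HSq
  refine Finset.sum_congr rfl fun w _ => ?_
  congr 1
  have h1 : ∀ σ τ : Equiv.Perm (Fin s ⊕ Fin b),
      (∏ a, Ψ a (w a) (σ (Sum.inl a)) (τ (Sum.inl a)))
      = ∑ H : Fin s → (Fin s ⊕ Fin b) × (Fin s ⊕ Fin b), (∏ a, Ψ a (w a) (H a).1 (H a).2) *
        ((∏ a, if σ (Sum.inl a) = (H a).1 then (1 : ℂ) else 0) *
          ∏ a, if τ (Sum.inl a) = (H a).2 then (1 : ℂ) else 0) := by
    intro σ τ
    have h2 : ∀ a, Ψ a (w a) (σ (Sum.inl a)) (τ (Sum.inl a))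
        = ∑ q : (Fin s ⊕ Fin b) × (Fin s ⊕ Fin b), Ψ a (w a) q.1 q.2 *
          ((if σ (Sum.inl a) = q.1 then (1 : ℂ) else 0) *
            (if τ (Sum.inl a) = q.2 then (1 : ℂ) else 0)) := by
      intro a
      rw [Finset.sum_eq_single (σ (Sum.inl a), τ (Sum.inl a))]
      · simp
      · intro q _ hq
        by_cases h3 : σ (Sum.inl a) = q.1
        · by_cases h4 : τ (Sum.inl a) = q.2
          · exact absurd (Prod.ext h3.symm h4.symm) hq
          · simp [h4]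
        · simp [h3]
      · intro h
        exact absurd (Finset.mem_univ _) h
    simp_rw [h2]
    rw [Finset.prod_univ_sum, Fintype.piFinset_univ]
    refine Finset.sum_congr rfl fun H _ => ?_
    rw [Finset.prod_mul_distrib, Finset.prod_mul_distrib]
  simp_rw [h1, Finset.sum_mul, Finset.mul_sum]
  have hsw : ∀ g : Equiv.Perm (Fin s ⊕ Fin b) → Equiv.Perm (Fin s ⊕ Fin b) →
      (Fin s → (Fin s ⊕ Fin b) × (Fin s ⊕ Fin b)) → ℂ,
      ∑ σ, ∑ τ, ∑ H, g σ τ H = ∑ H, ∑ σ, ∑ τ, g σ τ H := by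
    intro g
    calc ∑ σ, ∑ τ, ∑ H, g σ τ H = ∑ σ, ∑ H, ∑ τ, g σ τ H :=
          Finset.sum_congr rfl fun σ _ => Finset.sum_comm
      _ = ∑ H, ∑ σ, ∑ τ, g σ τ H := Finset.sum_comm
  rw [hsw]
  refine Finset.sum_congr rfl fun H _ => ?_
  unfold DN
  rw [star_sum, Finset.sum_mul_sum, Finset.mul_sum]
  refine Finset.sum_congr rfl fun σ _ => ?_
  rw [Finset.mul_sum]
  refine Finset.sum_congr rfl fun τ _ => ?_
  have hs : star ((Equiv.Perm.sign τ : ℤ) : ℂ) = ((Equiv.Perm.sign τ : ℤ) : ℂ) := by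
    simp
  have hd : star (∏ a, if τ (Sum.inl a) = (H a).2 then (1 : ℂ) else 0)
      = ∏ a, if τ (Sum.inl a) = (H a).2 then (1 : ℂ) else 0 := by
    rw [star_prod]
    refine Finset.prod_congr rfl fun a _ => ?_
    split_ifs <;> simp
  rw [star_mul', star_mul', hs, hd]
  ring

/-- transformed tensor. -/
noncomputable def FX (Ψ : Fin s → Fin s → Matrix (Fin s ⊕ Fin b) (Fin s ⊕ Fin b) ℂ)
    (X : Fin s → (Fin s ⊕ Fin b) → ℂ) (a a' i j : Fin s) : ℂ :=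
  ∑ q : (Fin s ⊕ Fin b) × (Fin s ⊕ Fin b), X i q.1 * star (X j q.2) * Ψ a a' q.1 q.2

theorem HSq_eq (Ψ : Fin s → Fin s → Matrix (Fin s ⊕ Fin b) (Fin s ⊕ Fin b) ℂ)
    (N : Fin b → (Fin s ⊕ Fin b) → ℂ) :
    ∃ (c : ℂ) (X : Fin s → (Fin s ⊕ Fin b) → ℂ), HSq Ψ N = c * star c * Hdet (FX Ψ X) := by
  obtain ⟨c, X, hX⟩ := DN_decomp (s := s) N
  refine ⟨c, X, ?_⟩
  rw [HSq_expand]
  have h1 : ∀ f : Fin s → (Fin s ⊕ Fin b),
      DN (fun a p => if p = f a then (1 : ℂ) else 0) N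
      = c * ∑ σ : Equiv.Perm (Fin s), ((Equiv.Perm.sign σ : ℤ) : ℂ) * ∏ a, X (σ a) (f a) := by
    intro f
    rw [hX]
    congr 1
    refine Finset.sum_congr rfl fun σ _ => ?_
    congr 1
    refine Finset.prod_congr rfl fun a _ => ?_
    simp
  have h2 : ∀ H : Fin s → (Fin s ⊕ Fin b) × (Fin s ⊕ Fin b),
      DN (fun a p => if p = (H a).1 then 1 else 0) N *
        star (DN (fun a p => if p = (H a).2 then 1 else 0) N)
      = c * star c * ∑ σ : Equiv.Perm (Fin s), ∑ τ : Equiv.Perm (Fin s),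
        ((Equiv.Perm.sign σ : ℤ) : ℂ) * ((Equiv.Perm.sign τ : ℤ) : ℂ) *
          ∏ a, (X (σ a) (H a).1 * star (X (τ a) (H a).2)) := by
    intro H
    rw [h1 (fun a => (H a).1), h1 (fun a => (H a).2), star_mul', mul_mul_mul_comm, star_sum,
      Finset.sum_mul_sum]
    congr 1
    refine Finset.sum_congr rfl fun σ _ => Finset.sum_congr rfl fun τ _ => ?_
    rw [Finset.prod_mul_distrib, star_mul', star_prod]
    have hs : star ((Equiv.Perm.sign τ : ℤ) : ℂ) = ((Equiv.Perm.sign τ : ℤ) : ℂ) := by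
      simp
    rw [hs]
    ring
  simp_rw [h2]
  unfold Hdet
  rw [Finset.mul_sum]
  refine Finset.sum_congr rfl fun w _ => ?_
  have h3 : ∀ σ τ : Equiv.Perm (Fin s), ∏ i, FX Ψ X i (w i) (σ i) (τ i)
      = ∑ H : Fin s → (Fin s ⊕ Fin b) × (Fin s ⊕ Fin b),
        (∏ a, Ψ a (w a) (H a).1 (H a).2) *
          ∏ a, (X (σ a) (H a).1 * star (X (τ a) (H a).2)) := by
    intro σ τ
    unfold FX
    rw [Finset.prod_univ_sum, Fintype.piFinset_univ]
    refine Finset.sum_congr rfl fun H _ => ?_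
    rw [Finset.prod_mul_distrib, mul_comm]
  simp_rw [h3, Finset.mul_sum]
  have hsw : ∀ g : Equiv.Perm (Fin s) → Equiv.Perm (Fin s) →
      (Fin s → (Fin s ⊕ Fin b) × (Fin s ⊕ Fin b)) → ℂ,
      ∑ H, ∑ σ, ∑ τ, g σ τ H = ∑ σ, ∑ τ, ∑ H, g σ τ H := by
    intro g
    symm
    calc ∑ σ, ∑ τ, ∑ H, g σ τ H = ∑ σ, ∑ H, ∑ τ, g σ τ H :=
          Finset.sum_congr rfl fun σ _ => Finset.sum_comm
      _ = ∑ H, ∑ σ, ∑ τ, g σ τ H := Finset.sum_comm
  rw [hsw]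
  refine Finset.sum_congr rfl fun σ _ => Finset.sum_congr rfl fun τ _ =>
    Finset.sum_congr rfl fun H _ => ?_
  ring

end H864D
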