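import Mathlib
import Pool.Agent.H864D.Hook1
import Pool.Agent.H864R3.Chern3

set_option autoImplicit false

namespace H864D

open scoped ComplexOrder

/-- Griffiths semipositivity (unitary frame). -/
def GriffithsSemipositive {n r : ℕ} (Θ : Fin n → Fin n → Matrix (Fin r) (Fin r) ℂ) : Prop :=
  ∀ ξ : Fin n → ℂ, (curv Θ ξ ξ).PosSemidef

/-- A complex matrix with nonnegative quadratic form is positive semidefinite. -/
theorem psd_of_nonneg {κ : Type*} [Fintype κ] [DecidableEq κ] (M : Matrix κ κ ℂ)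
    (h : ∀ x : κ → ℂ, 0 ≤ star x ⬝ᵥ M.mulVec x) : M.PosSemidef := by
  have him : ∀ x : κ → ℂ, (star x ⬝ᵥ M.mulVec x).im = 0 := fun x =>
    ((Complex.le_def.mp (h x)).2).symm
  have hq : ∀ (i j : κ) (c : ℂ), star (Pi.single i 1 + c • Pi.single j 1 : κ → ℂ) ⬝ᵥ
      M.mulVec (Pi.single i 1 + c • Pi.single j 1)
      = M i i + c * M i j + star c * M j i + star c * c * M j j := by
    intro i j c
    rw [star_add, star_smul, Matrix.mulVec_add, Matrix.mulVec_smul, add_dotProduct,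
      dotProduct_add, dotProduct_add]
    simp only [smul_dotProduct, dotProduct_smul, Pi.star_single, star_one,
      single_one_dotProduct, Matrix.mulVec_single_one, smul_eq_mul, Matrix.col_apply]
    ring
  have hd : ∀ i, (M i i).im = 0 := by
    intro i
    have := him (Pi.single i 1)
    simpa [Pi.star_single] using this
  have hherm : M.IsHermitian := by
    ext i j
    rw [Matrix.conjTranspose_apply]
    have h1 := him (Pi.single j 1 + (1 : ℂ) • Pi.single i 1)
    have h2 := him (Pi.single j 1 + Complex.I • Pi.single i 1)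
    rw [hq] at h1 h2
    have hi := hd i
    have hj := hd j
    simp [Complex.add_im, Complex.mul_im, Complex.mul_re, hi, hj] at h1 h2
    apply Complex.ext
    · simp
      linarith
    · simp
      linarith
  exact Matrix.PosSemidef.of_dotProduct_mulVec_nonneg hherm h

/-- the tangent matrix of a semipositive tensor in the fibre direction `g`. -/
theorem fibre_psd {n r : ℕ} {κ : Type*} [Fintype κ] [DecidableEq κ]
    (Θ : Fin n → Fin n → Matrix (Fin r) (Fin r) ℂ) (hΘ : GriffithsSemipositive Θ)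
    (u : κ → Fin n → ℂ) (g : Fin r → ℂ) :
    (Matrix.of fun p p' : κ => ∑ c, ∑ d, star (g c) * g d * curv Θ (u p) (u p') c d).PosSemidef := by
  apply psd_of_nonneg
  intro x
  have hlin : ∀ c d, curv Θ (∑ p, star (x p) • u p) (∑ p, star (x p) • u p) c d
      = ∑ p, ∑ p', star (x p) * x p' * curv Θ (u p) (u p') c d := by
    intro c d
    simp only [curv_apply, Finset.sum_apply, Pi.smul_apply, smul_eq_mul, star_sum, star_mul',
      star_star]
    have e : ∀ i j, (∑ p, star (x p) * u p i) * (∑ p', x p' * star (u p' j)) * Θ i j c d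
        = ∑ p, ∑ p', star (x p) * x p' * (u p i * star (u p' j) * Θ i j c d) := by
      intro i j
      rw [Finset.sum_mul_sum, Finset.sum_mul]
      refine Finset.sum_congr rfl fun s _ => ?_
      rw [Finset.sum_mul]
      refine Finset.sum_congr rfl fun t _ => ?_
      ring
    simp_rw [e, Finset.mul_sum]
    have h : ∀ G : Fin n → Fin n → κ → κ → ℂ,
        ∑ i, ∑ j, ∑ s, ∑ t, G i j s t = ∑ s, ∑ t, ∑ i, ∑ j, G i j s t := by
      intro G
      calc ∑ i, ∑ j, ∑ s, ∑ t, G i j s t = ∑ i, ∑ s, ∑ j, ∑ t, G i j s t :=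
            Finset.sum_congr rfl fun i _ => Finset.sum_comm
        _ = ∑ s, ∑ i, ∑ j, ∑ t, G i j s t := Finset.sum_comm
        _ = ∑ s, ∑ i, ∑ t, ∑ j, G i j s t :=
            Finset.sum_congr rfl fun s _ => Finset.sum_congr rfl fun i _ => Finset.sum_comm
        _ = ∑ s, ∑ t, ∑ i, ∑ j, G i j s t :=
            Finset.sum_congr rfl fun s _ => Finset.sum_comm
    rw [h]
  have hpos := (hΘ (∑ p, star (x p) • u p)).dotProduct_mulVec_nonneg g
  have heq : star x ⬝ᵥ (Matrix.of fun p p' : κ =>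
        ∑ c, ∑ d, star (g c) * g d * curv Θ (u p) (u p') c d).mulVec x
      = star g ⬝ᵥ (curv Θ (∑ p, star (x p) • u p) (∑ p, star (x p) • u p)).mulVec g := by
    simp only [dotProduct, Matrix.mulVec, Matrix.of_apply, Pi.star_apply, hlin, Finset.mul_sum,
      Finset.sum_mul]
    calc ∑ p, ∑ p', ∑ c, ∑ d, star (x p) * (star (g c) * g d * curv Θ (u p) (u p') c d * x p')
        = ∑ p, ∑ c, ∑ p', ∑ d, star (x p) * (star (g c) * g d * curv Θ (u p) (u p') c d * x p') :=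
          Finset.sum_congr rfl fun i _ => Finset.sum_comm
      _ = ∑ c, ∑ p, ∑ p', ∑ d, star (x p) * (star (g c) * g d * curv Θ (u p) (u p') c d * x p') :=
          Finset.sum_comm
      _ = ∑ c, ∑ p, ∑ d, ∑ p', star (x p) * (star (g c) * g d * curv Θ (u p) (u p') c d * x p') :=
          Finset.sum_congr rfl fun s _ => Finset.sum_congr rfl fun i _ => Finset.sum_comm
      _ = ∑ c, ∑ d, ∑ p, ∑ p', star (x p) * (star (g c) * g d * curv Θ (u p) (u p') c d * x p') :=
          Finset.sum_congr rfl fun s _ => Finset.sum_comm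
      _ = _ := by
          refine Finset.sum_congr rfl fun c _ => Finset.sum_congr rfl fun d _ =>
            Finset.sum_congr rfl fun p _ => Finset.sum_congr rfl fun p' _ => ?_
          ring
  rw [heq]
  exact hpos

variable {s b : ℕ}

/-- `s × s` block with `b` equal scalar blocks. -/
noncomputable def HS (Ψ : Fin s → Fin s → Matrix (Fin s ⊕ Fin b) (Fin s ⊕ Fin b) ℂ)
    (P : Matrix (Fin s ⊕ Fin b) (Fin s ⊕ Fin b) ℂ) : ℂ :=
  ∑ w : Equiv.Perm (Fin s), ((Equiv.Perm.sign w : ℤ) : ℂ) *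
    ∑ σ : Equiv.Perm (Fin s ⊕ Fin b), ∑ τ : Equiv.Perm (Fin s ⊕ Fin b),
      ((Equiv.Perm.sign σ : ℤ) : ℂ) * ((Equiv.Perm.sign τ : ℤ) : ℂ) *
      ((∏ a, Ψ a (w a) (σ (Sum.inl a)) (τ (Sum.inl a))) *
        ∏ j, P (σ (Sum.inr j)) (τ (Sum.inr j)))

theorem HS_sum (Ψ : Fin s → Fin s → Matrix (Fin s ⊕ Fin b) (Fin s ⊕ Fin b) ℂ)
    (D : Matrix (Fin s ⊕ Fin b) (Fin s ⊕ Fin b) ℂ) :
    HS Ψ (D.conjTranspose * D)
      = ∑ f : Fin b → Fin s ⊕ Fin b, HSq Ψ (fun j i => star (D (f j) i)) := by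
  unfold HS HSq
  have h1 : ∀ σ τ : Equiv.Perm (Fin s ⊕ Fin b),
      (∏ j, (D.conjTranspose * D) (σ (Sum.inr j)) (τ (Sum.inr j)))
      = ∑ f : Fin b → Fin s ⊕ Fin b, (∏ j, star (D (f j) (σ (Sum.inr j)))) *
          star (∏ j, star (D (f j) (τ (Sum.inr j)))) := by
    intro σ τ
    simp only [Matrix.mul_apply, Matrix.conjTranspose_apply]
    rw [Finset.prod_univ_sum, Fintype.piFinset_univ]
    refine Finset.sum_congr rfl fun f _ => ?_
    rw [Finset.prod_mul_distrib, star_prod]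
    simp
  simp_rw [h1, Finset.mul_sum]
  rw [Finset.sum_comm (s := (Finset.univ : Finset (Fin b → Fin s ⊕ Fin b)))]
  refine Finset.sum_congr rfl fun w _ => ?_
  have hsw : ∀ g : Equiv.Perm (Fin s ⊕ Fin b) → Equiv.Perm (Fin s ⊕ Fin b) →
      (Fin b → Fin s ⊕ Fin b) → ℂ,
      ∑ σ, ∑ τ, ∑ H, g σ τ H = ∑ H, ∑ σ, ∑ τ, g σ τ H := by
    intro g
    calc ∑ σ, ∑ τ, ∑ H, g σ τ H = ∑ σ, ∑ H, ∑ τ, g σ τ H :=
          Finset.sum_congr rfl fun σ _ => Finset.sum_comm
      _ = ∑ H, ∑ σ, ∑ τ, g σ τ H := Finset.sum_comm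
  rw [hsw]

theorem HS_nonneg (Ψ : Fin s → Fin s → Matrix (Fin s ⊕ Fin b) (Fin s ⊕ Fin b) ℂ)
    (P : Matrix (Fin s ⊕ Fin b) (Fin s ⊕ Fin b) ℂ) (hP : P.PosSemidef)
    (hΨ : ∀ X : Fin s → (Fin s ⊕ Fin b) → ℂ, 0 ≤ Hdet (FX Ψ X)) : 0 ≤ HS Ψ P := by
  obtain ⟨D, hD⟩ := exists_factor hP
  rw [hD, HS_sum]
  refine Finset.sum_nonneg fun f _ => ?_
  obtain ⟨c, X, h⟩ := HSq_eq Ψ (fun j i => star (D (f j) i))
  rw [h]
  refine mul_nonneg ?_ (hΨ X)
  exact mul_star_self_nonneg c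

end H864D
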