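import Mathlib
import Pool.Agent.H864D.Hook2

set_option autoImplicit false

namespace H864D

open MeasureTheory
open scoped ComplexOrder

theorem young_nonneg_of {n r k m : ℕ} (row : Fin k → Fin m) (col : Fin k → Fin r)
    (Θ : Fin n → Fin n → Matrix (Fin r) (Fin r) ℂ) (v : Fin k → Fin n → ℂ)
    (h : ∀ z, 0 ≤ Hdet (comp row col (fun c d i j => curv Θ (v i) (v j) c d) z)) :
    0 ≤ youngForm row col Θ v := by
  have hY := youngForm_eq row col Θ v
  have heq : ∀ z, Hdet (comp row col (fun c d i j => curv Θ (v i) (v j) c d) z) * gW z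
      = (((Hdet (comp row col (fun c d i j => curv Θ (v i) (v j) c d) z)).re * gR2 z : ℝ) : ℂ) := by
    intro z
    have h1 := Complex.le_def.mp (h z)
    have h2 : Hdet (comp row col (fun c d i j => curv Θ (v i) (v j) c d) z)
        = ((Hdet (comp row col (fun c d i j => curv Θ (v i) (v j) c d) z)).re : ℂ) := by
      apply Complex.ext
      · simp
      · simpa using h1.2.symm
    rw [gW2_eq]
    conv_lhs => rw [h2]
    push_cast
    rfl
  simp_rw [heq] at hY
  rw [integral_complex_ofReal] at hY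
  have hpi : (0 : ℝ) < Real.pi ^ (Fintype.card (Fin r × Fin r)) := by positivity
  have hint : 0 ≤ ∫ z, (Hdet (comp row col (fun c d i j => curv Θ (v i) (v j) c d) z)).re * gR2 z := by
    refine integral_nonneg fun z => mul_nonneg ?_ (gR2_pos z).le
    exact (Complex.le_def.mp (h z)).1
  have : youngForm row col Θ v = (((Real.pi ^ (Fintype.card (Fin r × Fin r)))⁻¹ *
      ∫ z, (Hdet (comp row col (fun c d i j => curv Θ (v i) (v j) c d) z)).re * gR2 z : ℝ) : ℂ) := by
    push_cast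
    rw [hY, ← mul_assoc, inv_mul_cancel₀, one_mul]
    exact_mod_cast hpi.ne'
  rw [this]
  exact_mod_cast mul_nonneg (inv_nonneg.mpr hpi.le) hint

/-- bilinearity of the curvature. -/
theorem curv_bilin {n r : ℕ} {κ : Type*} [Fintype κ]
    (Θ : Fin n → Fin n → Matrix (Fin r) (Fin r) ℂ) (u : κ → Fin n → ℂ) (x y : κ → ℂ)
    (c d : Fin r) :
    curv Θ (∑ p, x p • u p) (∑ p, y p • u p) c d
      = ∑ p, ∑ p', x p * star (y p') * curv Θ (u p) (u p') c d := by
  simp only [curv_apply, Finset.sum_apply, Pi.smul_apply, smul_eq_mul, star_sum, star_mul']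
  have e : ∀ i j, (∑ p, x p * u p i) * (∑ p', star (y p') * star (u p' j)) * Θ i j c d
      = ∑ p, ∑ p', x p * star (y p') * (u p i * star (u p' j) * Θ i j c d) := by
    intro i j
    rw [Finset.sum_mul_sum, Finset.sum_mul]
    refine Finset.sum_congr rfl fun s _ => ?_
    rw [Finset.sum_mul]
    refine Finset.sum_congr rfl fun t _ => ?_
    ring
  simp_rw [e, Finset.mul_sum]
  have h : ∀ G : Fin n → Fin n → κ → κ → ℂ,
      ∑ i, ∑ j, ∑ s, ∑ t, G i j s t = ∑ s, ∑ t, ∑ i, ∑ j, G i j s t := by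
    intro G
    calc ∑ i, ∑ j, ∑ s, ∑ t, G i j s t = ∑ i, ∑ s, ∑ j, ∑ t, G i j s t :=
          Finset.sum_congr rfl fun i _ => Finset.sum_comm
      _ = ∑ s, ∑ i, ∑ j, ∑ t, G i j s t := Finset.sum_comm
      _ = ∑ s, ∑ i, ∑ t, ∑ j, G i j s t :=
          Finset.sum_congr rfl fun s _ => Finset.sum_congr rfl fun i _ => Finset.sum_comm
      _ = ∑ s, ∑ t, ∑ i, ∑ j, G i j s t :=
          Finset.sum_congr rfl fun s _ => Finset.sum_comm
  rw [h]

/-- compressed curvature blocks. -/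
noncomputable def KK {n r : ℕ} {κ : Type*} (Θ : Fin n → Fin n → Matrix (Fin r) (Fin r) ℂ)
    (u : κ → Fin n → ℂ) (g g' : Fin r → ℂ) : Matrix κ κ ℂ :=
  Matrix.of fun p p' => ∑ c, ∑ d, star (g c) * g' d * curv Θ (u p) (u p') c d

theorem FX_KK {n r s b : ℕ} (Θ : Fin n → Fin n → Matrix (Fin r) (Fin r) ℂ)
    (u : (Fin s ⊕ Fin b) → Fin n → ℂ) (g : Fin s → Fin r → ℂ)
    (X : Fin s → (Fin s ⊕ Fin b) → ℂ) (a a' i j : Fin s) :
    FX (fun a a' => KK Θ u (g a) (g a')) X a a' i j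
      = KK Θ (fun i : Fin s => ∑ p, X i p • u p) (g a) (g a') i j := by
  unfold FX KK
  simp only [Matrix.of_apply]
  rw [Fintype.sum_prod_type]
  simp only [Finset.mul_sum]
  have hb : ∀ c d, curv Θ (∑ p, X i p • u p) (∑ p, X j p • u p) c d
      = ∑ p, ∑ p', X i p * star (X j p') * curv Θ (u p) (u p') c d := fun c d =>
    curv_bilin Θ u (X i) (X j) c d
  simp_rw [hb, Finset.mul_sum]
  have h : ∀ G : (Fin s ⊕ Fin b) → (Fin s ⊕ Fin b) → Fin r → Fin r → ℂ,
      ∑ i, ∑ j, ∑ s, ∑ t, G i j s t = ∑ s, ∑ t, ∑ i, ∑ j, G i j s t := by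
    intro G
    calc ∑ i, ∑ j, ∑ s, ∑ t, G i j s t = ∑ i, ∑ s, ∑ j, ∑ t, G i j s t :=
          Finset.sum_congr rfl fun i _ => Finset.sum_comm
      _ = ∑ s, ∑ i, ∑ j, ∑ t, G i j s t := Finset.sum_comm
      _ = ∑ s, ∑ i, ∑ t, ∑ j, G i j s t :=
          Finset.sum_congr rfl fun s _ => Finset.sum_congr rfl fun i _ => Finset.sum_comm
      _ = ∑ s, ∑ t, ∑ i, ∑ j, G i j s t :=
          Finset.sum_congr rfl fun s _ => Finset.sum_comm
  rw [h]
  refine Finset.sum_congr rfl fun c _ => Finset.sum_congr rfl fun d _ =>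
    Finset.sum_congr rfl fun p _ => Finset.sum_congr rfl fun p' _ => ?_
  ring

/-- `c_3`-type positivity (from the degree three theorem). -/
theorem hdet3_nonneg {n r : ℕ} (Θ : Fin n → Fin n → Matrix (Fin r) (Fin r) ℂ)
    (hΘ : GriffithsSemipositive Θ) (u : Fin 3 → Fin n → ℂ) (g : Fin 3 → Fin r → ℂ) :
    0 ≤ Hdet (fun a a' i j : Fin 3 => KK Θ u (g a) (g a') i j) := by
  have h := H864R3.core_nonneg (B := fun a a' => KK Θ u (g a) (g a')) (by
    intro ξ
    have e : (∑ a : Fin 3, ∑ a' : Fin 3, (ξ a * star (ξ a')) • KK Θ u (g a) (g a'))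
        = Matrix.of fun p p' : Fin 3 => ∑ c, ∑ d,
          star ((∑ a, star (ξ a) • g a) c) * (∑ a, star (ξ a) • g a) d * curv Θ (u p) (u p') c d := by
      ext p p'
      simp only [Matrix.sum_apply, Matrix.smul_apply, KK, Matrix.of_apply, smul_eq_mul,
        Finset.sum_apply, Pi.smul_apply, star_sum, star_mul', star_star, Finset.sum_mul_sum,
        Finset.mul_sum, Finset.sum_mul]
      have h4 : ∀ G : Fin 3 → Fin 3 → Fin r → Fin r → ℂ,
          ∑ i, ∑ j, ∑ s, ∑ t, G i j s t = ∑ s, ∑ t, ∑ i, ∑ j, G i j s t := by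
        intro G
        calc ∑ i, ∑ j, ∑ s, ∑ t, G i j s t = ∑ i, ∑ s, ∑ j, ∑ t, G i j s t :=
              Finset.sum_congr rfl fun i _ => Finset.sum_comm
          _ = ∑ s, ∑ i, ∑ j, ∑ t, G i j s t := Finset.sum_comm
          _ = ∑ s, ∑ i, ∑ t, ∑ j, G i j s t :=
              Finset.sum_congr rfl fun s _ => Finset.sum_congr rfl fun i _ => Finset.sum_comm
          _ = ∑ s, ∑ t, ∑ i, ∑ j, G i j s t :=
              Finset.sum_congr rfl fun s _ => Finset.sum_comm
      rw [h4]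
      refine Finset.sum_congr rfl fun c _ => Finset.sum_congr rfl fun d _ => ?_
      rw [Finset.sum_comm]
      refine Finset.sum_congr rfl fun p _ => Finset.sum_congr rfl fun p' _ => ?_
      ring
    rw [e]
    exact fibre_psd Θ hΘ u _)
  have e2 : H864R3.Phi6 (fun a a' => KK Θ u (g a) (g a'))
      = Hdet (fun a a' i j : Fin 3 => KK Θ u (g a) (g a') i j) := by
    unfold H864R3.Phi6 Hdet
    refine Finset.sum_congr rfl fun w _ => ?_
    rw [Finset.mul_sum]
    refine Finset.sum_congr rfl fun σ _ => ?_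
    rw [Finset.mul_sum]
  rw [← e2]
  exact h

/-- The alternating sum over a general index type. -/
noncomputable def HdetI {ι : Type*} [Fintype ι] [DecidableEq ι] (F : ι → ι → ι → ι → ℂ) : ℂ :=
  ∑ w : Equiv.Perm ι, ∑ σ : Equiv.Perm ι, ∑ τ : Equiv.Perm ι,
    ((Equiv.Perm.sign w : ℤ) : ℂ) * (((Equiv.Perm.sign σ : ℤ) : ℂ) *
      ((Equiv.Perm.sign τ : ℤ) : ℂ) * ∏ i, F i (w i) (σ i) (τ i))

theorem Hdet_reindex {k : ℕ} {ι : Type*} [Fintype ι] [DecidableEq ι] (e : Fin k ≃ ι)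
    (F : Fin k → Fin k → Fin k → Fin k → ℂ) :
    Hdet F = HdetI (fun a b i j => F (e.symm a) (e.symm b) (e.symm i) (e.symm j)) := by
  unfold Hdet HdetI
  refine Fintype.sum_equiv (Equiv.permCongr e) _ _ fun w => ?_
  refine Fintype.sum_equiv (Equiv.permCongr e) _ _ fun σ => ?_
  refine Fintype.sum_equiv (Equiv.permCongr e) _ _ fun τ => ?_
  rw [Equiv.Perm.sign_permCongr, Equiv.Perm.sign_permCongr, Equiv.Perm.sign_permCongr]
  congr 2
  refine Fintype.prod_equiv e _ _ fun i => ?_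
  simp [Equiv.permCongr_apply]

end H864D
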