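import Mathlib
import Pool.Agent.H864D.Hook3

set_option autoImplicit false

namespace H864D

open scoped ComplexOrder

variable {s b : ℕ}

/-- rows of the hook: the first row has `s` boxes, the others have one. -/
def hrow : (Fin s ⊕ Fin b) → Fin (b + 1) := Sum.elim (fun _ => 0) (fun j => j.succ)

theorem HdetI_block (K : (Fin s ⊕ Fin b) → (Fin s ⊕ Fin b) → (Fin s ⊕ Fin b) → (Fin s ⊕ Fin b) → ℂ)
    (P : Matrix (Fin s ⊕ Fin b) (Fin s ⊕ Fin b) ℂ)
    (hK : ∀ j p p', K (Sum.inr j) (Sum.inr j) p p' = P p p') :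
    HdetI (fun x x' p p' => if hrow x' = hrow x then K x x' p p' else 0)
      = HS (fun a a' => Matrix.of fun p p' => K (Sum.inl a) (Sum.inl a') p p') P := by
  classical
  let φ : Equiv.Perm (Fin s) → Equiv.Perm (Fin s ⊕ Fin b) := fun w => Equiv.Perm.sumCongr w 1
  have hinj : Function.Injective φ := by
    intro p q h
    have := Equiv.Perm.sumCongrHom_injective (α := Fin s) (β := Fin b)
      (a₁ := (p, 1)) (a₂ := (q, 1)) h
    exact (Prod.ext_iff.mp this).1
  let f : Equiv.Perm (Fin s ⊕ Fin b) → ℂ := fun w =>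
    ∑ σ : Equiv.Perm (Fin s ⊕ Fin b), ∑ τ : Equiv.Perm (Fin s ⊕ Fin b),
    ((Equiv.Perm.sign w : ℤ) : ℂ) * (((Equiv.Perm.sign σ : ℤ) : ℂ) *
      ((Equiv.Perm.sign τ : ℤ) : ℂ) * ∏ i, if hrow (w i) = hrow i then
        K i (w i) (σ i) (τ i) else 0)
  have h1 : ∀ w' : Equiv.Perm (Fin s), f (φ w') = ((Equiv.Perm.sign w' : ℤ) : ℂ) *
      ∑ σ : Equiv.Perm (Fin s ⊕ Fin b), ∑ τ : Equiv.Perm (Fin s ⊕ Fin b),
      ((Equiv.Perm.sign σ : ℤ) : ℂ) * ((Equiv.Perm.sign τ : ℤ) : ℂ) *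
      ((∏ a, (Matrix.of fun p p' => K (Sum.inl a) (Sum.inl (w' a)) p p')
        (σ (Sum.inl a)) (τ (Sum.inl a))) *
        ∏ j, P (σ (Sum.inr j)) (τ (Sum.inr j))) := by
    intro w'
    simp only [f]
    rw [Finset.mul_sum]
    refine Finset.sum_congr rfl fun σ _ => ?_
    rw [Finset.mul_sum]
    refine Finset.sum_congr rfl fun τ _ => ?_
    have hs : ((Equiv.Perm.sign (φ w') : ℤ) : ℂ) = ((Equiv.Perm.sign w' : ℤ) : ℂ) := by
      simp [φ, Equiv.Perm.sign_sumCongr]
    rw [hs, Fintype.prod_sum_type]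
    congr 2
    congr 1
    refine Finset.prod_congr rfl fun a _ => ?_
    simp [φ, hrow, hK]
  have h2 : HdetI (fun x x' p p' => if hrow x' = hrow x then K x x' p p' else 0)
      = ∑ w, f w := rfl
  have h3 : HS (fun a a' => Matrix.of fun p p' => K (Sum.inl a) (Sum.inl a') p p') P
      = ∑ w', f (φ w') := by
    unfold HS
    exact Finset.sum_congr rfl fun w' _ => (h1 w').symm
  rw [h2, h3, ← Finset.sum_image (s := Finset.univ) (g := φ) (f := f) (fun p _ q _ h => hinj h)]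
  symm
  refine Finset.sum_subset (Finset.subset_univ _) fun w _ hw => ?_
  simp only [f]
  refine Finset.sum_eq_zero fun σ _ => Finset.sum_eq_zero fun τ _ => ?_
  rw [mul_eq_zero, mul_eq_zero]
  right
  right
  by_contra hne
  apply hw
  rw [Finset.mem_image]
  have hrows : ∀ x, hrow (w x) = hrow x := by
    intro x
    by_contra hx
    exact hne (Finset.prod_eq_zero (Finset.mem_univ x) (by rw [if_neg hx]))
  have hmaps : Set.MapsTo w (Set.range Sum.inl) (Set.range Sum.inl) := by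
    rintro _ ⟨i, rfl⟩
    have h4 := hrows (Sum.inl i)
    cases hc : w (Sum.inl i) with
    | inl j => exact ⟨j, rfl⟩
    | inr j =>
      rw [hc] at h4
      simp only [hrow, Sum.elim_inr, Sum.elim_inl] at h4
      exact absurd h4 (Fin.succ_ne_zero j)
  obtain ⟨⟨p1, p2⟩, hp⟩ := Equiv.Perm.mem_sumCongrHom_range_of_perm_mapsTo_inl hmaps
  have hp2 : p2 = 1 := by
    ext j
    have h5 := hrows (Sum.inr j)
    rw [← hp] at h5
    simp only [Equiv.Perm.sumCongrHom_apply, Equiv.Perm.sumCongr_apply, Sum.map_inr, hrow,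
      Sum.elim_inr] at h5
    have := Fin.succ_injective _ h5
    rw [this]
    rfl
  refine ⟨p1, Finset.mem_univ _, ?_⟩
  rw [← hp, hp2]
  rfl

/-- The Schur form of the hook with first row of length `s` and `b` further boxes in the first
column, up to the product of the hook lengths: the trace of its Young symmetrizer (boxes numbered
by `e`). -/
noncomputable def hookForm {n r k s b : ℕ} (hs : 1 ≤ s) (hr : s ≤ r) (e : Fin k ≃ Fin s ⊕ Fin b)
    (Θ : Fin n → Fin n → Matrix (Fin r) (Fin r) ℂ) (v : Fin k → Fin n → ℂ) : ℂ :=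
  youngForm (fun i => Sum.elim (fun _ : Fin s => (0 : Fin (b + 1))) (fun j => j.succ) (e i))
    (fun i => Sum.elim (fun a : Fin s => Fin.castLE hr a)
      (fun _ : Fin b => (⟨0, by omega⟩ : Fin r)) (e i)) Θ v

theorem hook_nonneg_of {n r k s b : ℕ} (hs : 1 ≤ s) (hr : s ≤ r) (e : Fin k ≃ Fin s ⊕ Fin b)
    (Θ : Fin n → Fin n → Matrix (Fin r) (Fin r) ℂ) (hΘ : GriffithsSemipositive Θ)
    (hc : ∀ (u : Fin s → Fin n → ℂ) (g : Fin s → Fin r → ℂ),
      0 ≤ Hdet (fun a a' i j : Fin s => KK Θ u (g a) (g a') i j))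
    (v : Fin k → Fin n → ℂ) : 0 ≤ hookForm hs hr e Θ v := by
  classical
  apply young_nonneg_of
  intro z
  rw [Hdet_reindex e]
  let u : (Fin s ⊕ Fin b) → Fin n → ℂ := fun x => v (e.symm x)
  let colf : (Fin s ⊕ Fin b) → Fin r := Sum.elim (fun a : Fin s => Fin.castLE hr a)
      (fun _ : Fin b => (⟨0, by omega⟩ : Fin r))
  let g : (Fin s ⊕ Fin b) → Fin r → ℂ := fun x c => z (c, colf x)
  have h1 : (fun x x' p p' : Fin s ⊕ Fin b => comp
      (fun i => Sum.elim (fun _ : Fin s => (0 : Fin (b + 1))) (fun j => j.succ) (e i))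
      (fun i => Sum.elim (fun a : Fin s => Fin.castLE hr a)
      (fun _ : Fin b => (⟨0, by omega⟩ : Fin r)) (e i))
      (fun c d i j => curv Θ (v i) (v j) c d) z (e.symm x) (e.symm x') (e.symm p) (e.symm p'))
      = fun x x' p p' => if hrow x' = hrow x then KK Θ u (g x) (g x') p p' else 0 := by
    funext x x' p p'
    simp only [comp, Equiv.apply_symm_apply]
    rfl
  rw [h1, HdetI_block (fun x x' p p' => KK Θ u (g x) (g x') p p')
    (KK Θ u (fun c => z (c, ⟨0, by omega⟩)) (fun c => z (c, ⟨0, by omega⟩))) (fun j p p' => rfl)]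
  refine HS_nonneg _ _ (fibre_psd Θ hΘ u _) fun X => ?_
  have h2 : FX (fun a a' : Fin s => Matrix.of fun p p' : Fin s ⊕ Fin b =>
        KK Θ u (g (Sum.inl a)) (g (Sum.inl a')) p p') X
      = fun a a' i j => KK Θ (fun i : Fin s => ∑ p, X i p • u p)
          (g (Sum.inl a)) (g (Sum.inl a')) i j := by
    funext a a' i j
    exact FX_KK Θ u (fun a => g (Sum.inl a)) X a a' i j
  rw [h2]
  exact hc _ _

theorem hdet1_nonneg {n r : ℕ} (Θ : Fin n → Fin n → Matrix (Fin r) (Fin r) ℂ)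
    (hΘ : GriffithsSemipositive Θ) (u : Fin 1 → Fin n → ℂ) (g : Fin 1 → Fin r → ℂ) :
    0 ≤ Hdet (fun a a' i j : Fin 1 => KK Θ u (g a) (g a') i j) := by
  have h := (fibre_psd Θ hΘ u (g 0)).diag_nonneg (i := 0)
  have e : Hdet (fun a a' i j : Fin 1 => KK Θ u (g a) (g a') i j) = KK Θ u (g 0) (g 0) 0 0 := by
    unfold Hdet
    simp
  rw [e]
  exact h

end H864D
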