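import Mathlib
import Pool.Agent.H864D.Hook4

set_option autoImplicit false

namespace H864D

open scoped ComplexOrder

theorem hook3_nonneg {n r k b : ℕ} (hr : 3 ≤ r) (e : Fin k ≃ Fin 3 ⊕ Fin b)
    (Θ : Fin n → Fin n → Matrix (Fin r) (Fin r) ℂ) (hΘ : GriffithsSemipositive Θ)
    (v : Fin k → Fin n → ℂ) : 0 ≤ hookForm (by norm_num) hr e Θ v :=
  hook_nonneg_of (by norm_num) hr e Θ hΘ (fun u g => hdet3_nonneg Θ hΘ u g) v

end H864D
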