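import Mathlib
import Pool.Agent.H864D.Schur3

set_option autoImplicit false

namespace H864D

open scoped ComplexOrder

/-- The Schur form of the shape `σ` (rows of lengths `σ 0, σ 1, …`), up to the product of the hook
lengths: the trace of the Young symmetrizer of the shape `σ`, antisymmetric along the rows and
symmetric along the columns, on the `k`-th tensor power of the matrix of `(1,1)`-forms `Θ`. The
equivalence `e` numbers the boxes. -/
noncomputable def schurForm {n r k m : ℕ} (σ : Fin m → ℕ) (hσ : ∀ a, σ a ≤ r)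
    (e : Fin k ≃ Σ a : Fin m, Fin (σ a))
    (Θ : Fin n → Fin n → Matrix (Fin r) (Fin r) ℂ) (v : Fin k → Fin n → ℂ) : ℂ :=
  youngForm (fun i => (e i).1) (fun i => Fin.castLE (hσ (e i).1) (e i).2) Θ v

theorem schur_decomposable {n r k m : ℕ} (σ : Fin m → ℕ) (hσ : ∀ a, σ a ≤ r)
    (e : Fin k ≃ Σ a : Fin m, Fin (σ a))
    (Θ Θ₁ Θ₂ : Fin n → Fin n → Matrix (Fin r) (Fin r) ℂ)
    (hdec : ∀ i j, Θ i j = Θ₁ i j + Θ₂ i j) (h1 : NakanoSemipositive Θ₁)
    (h2 : DualNakanoSemipositive Θ₂) (v : Fin k → Fin n → ℂ) :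
    0 ≤ schurForm σ hσ e Θ v ∧
      (GriffithsPositive Θ → LinearIndependent ℂ v → 0 < schurForm σ hσ e Θ v) := by
  refine young_decomposable _ _ ?_ Θ Θ₁ Θ₂ hdec h1 h2 v
  intro i j h3 h4
  apply e.injective
  have h5 : ((e i).2 : ℕ) = ((e j).2 : ℕ) := by
    have := congrArg Fin.val h4
    simpa using this
  refine Sigma.ext h3 ?_
  rw [Fin.heq_ext_iff (by rw [h3])]
  exact h5

end H864D
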